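import Pool.Agent.R811.VK.Defs

set_option autoImplicit false

namespace Pool.Agent.R811.VK

open Relation

/-! ### Words and substitutions -/

/-- Substitution at one letter. -/
def put1 (h : Pass) (A : Word) : Pass → Word := fun p => if p = h then A else [p]

/-- Substitution at two letters. -/
def put2 (h k : Pass) (A B : Word) : Pass → Word :=
  fun p => if p = h then A else if p = k then B else [p]

/-- Substitution at three letters. -/
def put3 (h k l : Pass) (A B C : Word) : Pass → Word :=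
  fun p => if p = h then A else if p = k then B else if p = l then C else [p]

theorem flatMap_fixed (w : Word) (f : Pass → Word) (h : ∀ p ∈ w, f p = [p]) :
    w.flatMap f = w := by
  induction w with
  | nil => rfl
  | cons p w ih =>
    rw [List.flatMap_cons, h p (by simp), ih (fun q hq => h q (by simp [hq]))]
    rfl

theorem exists_split {w : Word} {h : Pass} (hc : w.count h = 1) :
    ∃ A B, w = A ++ h :: B ∧ h ∉ A ∧ h ∉ B := by
  have hm : h ∈ w := List.count_pos_iff.1 (by omega)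
  obtain ⟨A, B, rfl⟩ := List.append_of_mem hm
  rw [List.count_append, List.count_cons_self] at hc
  exact ⟨A, B, rfl, List.count_eq_zero.1 (by omega), List.count_eq_zero.1 (by omega)⟩

theorem count_flatMap_eq (w : Word) (f : Pass → Word) (a q : Pass)
    (h : ∀ p ∈ w, (f p).count a = if p = q then 1 else 0) : (w.flatMap f).count a = w.count q := by
  induction w with
  | nil => rfl
  | cons p w ih =>
    rw [List.flatMap_cons, List.count_append, h p (by simp),
      ih (fun r hr => h r (by simp [hr])), List.count_cons]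
    by_cases hp : p = q
    · simp [hp]; omega
    · simp [hp]

theorem split2 {w : Word} {h k : Pass} (hk : h ≠ k) (hh : w.count h = 1) (hk' : w.count k = 1) :
    (∃ A B D, w = A ++ h :: B ++ k :: D ∧ h ∉ A ∧ h ∉ B ∧ h ∉ D ∧ k ∉ A ∧ k ∉ B ∧ k ∉ D) ∨
    (∃ A B D, w = A ++ k :: B ++ h :: D ∧ h ∉ A ∧ h ∉ B ∧ h ∉ D ∧ k ∉ A ∧ k ∉ B ∧ k ∉ D) := by
  obtain ⟨A, B, rfl, hA, hB⟩ := exists_split hh
  rw [List.count_append, List.count_cons_of_ne hk] at hk'
  by_cases hkA : k ∈ A
  · right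
    have h1 : A.count k = 1 ∧ B.count k = 0 := by
      have := List.count_pos_iff.2 hkA
      omega
    obtain ⟨A1, A2, rfl, h2, h3⟩ := exists_split h1.1
    simp only [List.mem_append, List.mem_cons, not_or] at hA
    exact ⟨A1, A2, B, rfl, hA.1, hA.2.2, hB, h2, h3, List.count_eq_zero.1 h1.2⟩
  · left
    have h1 : B.count k = 1 := by
      have := List.count_eq_zero.2 hkA
      omega
    obtain ⟨B1, B2, rfl, h2, h3⟩ := exists_split h1
    simp only [List.mem_append, List.mem_cons, not_or] at hB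
    exact ⟨A, B1, B2, by simp, hA, hB.1, hB.2.2, hkA, h2, h3⟩

/-! ### Equivalences -/

/-- Equivalence of words. -/
def REq : Word → Word → Prop := EqvGen Move

theorem REq.refl (w : Word) : REq w w := EqvGen.refl w
theorem REq.symm {w w' : Word} (h : REq w w') : REq w' w := EqvGen.symm _ _ h
theorem REq.trans {u v w : Word} (h : REq u v) (h' : REq v w) : REq u w := EqvGen.trans _ _ _ h h'
theorem REq.of {w w' : Word} (h : Move w w') : REq w w' := EqvGen.rel _ _ h

theorem REq.rotate (U V : Word) : REq (U ++ V) (V ++ U) := REq.of (Move.rotate U V)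

/-- The moves which create crossings with names in `C`. -/
inductive SMove (C : Finset ℕ) : Word → Word → Prop
  | rotate (U V : Word) : SMove C (U ++ V) (V ++ U)
  | first (c : ℕ) (o s : Bool) (w : Word) (hC : c ∈ C) (hc : Fresh c w) :
      SMove C w ([⟨c, o, s⟩, ⟨c, !o, s⟩] ++ w)
  | second (c d : ℕ) (o s b : Bool) (U V : Word) (hcC : c ∈ C) (hdC : d ∈ C) (hcd : c ≠ d)
      (hc : Fresh c (U ++ V)) (hd : Fresh d (U ++ V)) :
      SMove C (U ++ V)
        ([⟨c, o, s⟩, ⟨d, o, !s⟩] ++ U ++ inOrder b ⟨c, !o, s⟩ ⟨d, !o, !s⟩ ++ V)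

/-- The equivalence relation generated by creations of crossings with names in `C`. -/
def SEq (C : Finset ℕ) : Word → Word → Prop := EqvGen (SMove C)

theorem SEq.refl {C : Finset ℕ} (w : Word) : SEq C w w := EqvGen.refl w
theorem SEq.symm {C : Finset ℕ} {w w' : Word} (h : SEq C w w') : SEq C w' w := EqvGen.symm _ _ h
theorem SEq.trans {C : Finset ℕ} {u v w : Word} (h : SEq C u v) (h' : SEq C v w) : SEq C u w :=
  EqvGen.trans _ _ _ h h'
theorem SEq.of {C : Finset ℕ} {w w' : Word} (h : SMove C w w') : SEq C w w' := EqvGen.rel _ _ h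
theorem SEq.rotate {C : Finset ℕ} (U V : Word) : SEq C (U ++ V) (V ++ U) :=
  SEq.of (SMove.rotate U V)

theorem SMove.toMove {C : Finset ℕ} {w w' : Word} (h : SMove C w w') : Move w w' := by
  cases h with
  | rotate U V => exact Move.rotate U V
  | first c o s w hC hc => exact Move.first c o s w hc
  | second c d o s b U V _ _ hcd hc hd => exact Move.second c d o s b U V hcd hc hd

theorem SMove.mono {C D : Finset ℕ} (hCD : C ⊆ D) {w w' : Word} (h : SMove C w w') :
    SMove D w w' := by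
  cases h with
  | rotate U V => exact SMove.rotate U V
  | first c o s w hC hc => exact SMove.first c o s w (hCD hC) hc
  | second c d o s b U V h1 h2 hcd hc hd =>
    exact SMove.second c d o s b U V (hCD h1) (hCD h2) hcd hc hd

theorem SEq.toREq {C : Finset ℕ} {w w' : Word} (h : SEq C w w') : REq w w' := by
  induction h with
  | rel _ _ h => exact REq.of h.toMove
  | refl _ => exact REq.refl _
  | symm _ _ _ ih => exact ih.symm
  | trans _ _ _ _ _ ih1 ih2 => exact ih1.trans ih2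

theorem SEq.mono {C D : Finset ℕ} (hCD : C ⊆ D) {w w' : Word} (h : SEq C w w') :
    SEq D w w' := by
  induction h with
  | rel _ _ h => exact SEq.of (h.mono hCD)
  | refl _ => exact SEq.refl _
  | symm _ _ _ ih => exact ih.symm
  | trans _ _ _ _ _ ih1 ih2 => exact ih1.trans ih2

/-- Substitutions which do not touch the crossings with names in `C`. -/
def Adm (C : Finset ℕ) (τ : Pass → Word) : Prop :=
  (∀ p, p.name ∈ C → τ p = [p]) ∧ ∀ p, p.name ∉ C → ∀ q ∈ τ p, q.name ∉ C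

theorem Adm.mono {C D : Finset ℕ} {τ : Pass → Word} (h : Adm D τ) (hCD : C ⊆ D) : Adm C τ := by
  refine ⟨fun p hp => h.1 p (hCD hp), fun p hp q hq => ?_⟩
  by_cases hD : p.name ∈ D
  · rw [h.1 p hD, List.mem_singleton] at hq
    rw [hq]
    exact hp
  · exact fun hC => h.2 p hD q hq (hCD hC)

theorem fresh_flatMap {C : Finset ℕ} {τ : Pass → Word} (hτ : Adm C τ) {c : ℕ} (hC : c ∈ C)
    {w : Word} (hc : Fresh c w) : Fresh c (w.flatMap τ) := by
  intro q hq
  rw [List.mem_flatMap] at hq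
  obtain ⟨p, hp, hq⟩ := hq
  by_cases hpC : p.name ∈ C
  · rw [hτ.1 p hpC, List.mem_singleton] at hq
    rw [hq]
    exact hc p hp
  · intro h
    exact hτ.2 p hpC q hq (h ▸ hC)

theorem inOrder_flatMap {C : Finset ℕ} {τ : Pass → Word} (hτ : Adm C τ) (b : Bool) {p q : Pass}
    (hp : p.name ∈ C) (hq : q.name ∈ C) : (inOrder b p q).flatMap τ = inOrder b p q := by
  cases b <;> simp [inOrder, hτ.1 p hp, hτ.1 q hq]

theorem SMove.subst {C : Finset ℕ} {τ : Pass → Word} (hτ : Adm C τ) {w w' : Word}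
    (h : SMove C w w') : SMove C (w.flatMap τ) (w'.flatMap τ) := by
  cases h with
  | rotate U V =>
    rw [List.flatMap_append, List.flatMap_append]
    exact SMove.rotate _ _
  | first c o s w hC hc =>
    have h1 : ([⟨c, o, s⟩, ⟨c, !o, s⟩] : Word).flatMap τ = [⟨c, o, s⟩, ⟨c, !o, s⟩] := by
      simp [hτ.1 ⟨c, o, s⟩ hC, hτ.1 ⟨c, !o, s⟩ hC]
    rw [List.flatMap_append, h1]
    exact SMove.first c o s _ hC (fresh_flatMap hτ hC hc)
  | second c d o s b U V h1 h2 hcd hc hd =>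
    have h3 : ([⟨c, o, s⟩, ⟨d, o, !s⟩] : Word).flatMap τ = [⟨c, o, s⟩, ⟨d, o, !s⟩] := by
      simp [hτ.1 ⟨c, o, s⟩ h1, hτ.1 ⟨d, o, !s⟩ h2]
    rw [List.flatMap_append, List.flatMap_append, List.flatMap_append, List.flatMap_append, h3,
      inOrder_flatMap hτ b (p := ⟨c, !o, s⟩) (q := ⟨d, !o, !s⟩) h1 h2]
    refine SMove.second c d o s b _ _ h1 h2 hcd ?_ ?_
    · rw [← List.flatMap_append]
      exact fresh_flatMap hτ h1 hc
    · rw [← List.flatMap_append]
      exact fresh_flatMap hτ h2 hd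

theorem SEq.subst {C : Finset ℕ} {τ : Pass → Word} (hτ : Adm C τ) {w w' : Word}
    (h : SEq C w w') : SEq C (w.flatMap τ) (w'.flatMap τ) := by
  induction h with
  | rel _ _ h => exact SEq.of (h.subst hτ)
  | refl _ => exact SEq.refl _
  | symm _ _ _ ih => exact ih.symm
  | trans _ _ _ _ _ ih1 ih2 => exact ih1.trans ih2

/-! ### Renaming -/

theorem rename_injective (f : Equiv.Perm ℕ) : Function.Injective (rename f) := by
  rintro ⟨n, o, s⟩ ⟨n', o', s'⟩ h
  simp only [rename, Pass.mk.injEq, EmbeddingLike.apply_eq_iff_eq] at h ⊢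
  exact h

theorem fresh_map {f : Equiv.Perm ℕ} {c : ℕ} {w : Word} (hc : Fresh c w) :
    Fresh (f c) (w.map (rename f)) := by
  intro q hq
  rw [List.mem_map] at hq
  obtain ⟨p, hp, rfl⟩ := hq
  intro h
  exact hc p hp (f.injective h)

theorem inOrder_map (f : Equiv.Perm ℕ) (b : Bool) (p q : Pass) :
    (inOrder b p q).map (rename f) = inOrder b (rename f p) (rename f q) := by
  cases b <;> rfl

theorem SEq.map {C : Finset ℕ} (f : Equiv.Perm ℕ) {w w' : Word} (h : SEq C w w') :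
    SEq (C.image f) (w.map (rename f)) (w'.map (rename f)) := by
  induction h with
  | rel _ _ h =>
    cases h with
    | rotate U V =>
      rw [List.map_append, List.map_append]
      exact SEq.rotate _ _
    | first c o s w hC hc =>
      rw [List.map_append]
      exact SEq.of (SMove.first (f c) o s _ (Finset.mem_image_of_mem f hC) (fresh_map hc))
    | second c d o s b U V h1 h2 hcd hc hd =>
      rw [List.map_append, List.map_append, List.map_append, List.map_append, inOrder_map]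
      refine SEq.of (SMove.second (f c) (f d) o s b _ _ (Finset.mem_image_of_mem f h1)
        (Finset.mem_image_of_mem f h2) (fun h => hcd (f.injective h)) ?_ ?_)
      · rw [← List.map_append]
        exact fresh_map hc
      · rw [← List.map_append]
        exact fresh_map hd
  | refl _ => exact SEq.refl _
  | symm _ _ _ ih => exact ih.symm
  | trans _ _ _ _ _ ih1 ih2 => exact ih1.trans ih2

/-! ### Creations in the middle of a word -/

theorem SEq.ctx1 {C : Finset ℕ} (A B : Word) {c : ℕ} (o s : Bool) (hC : c ∈ C)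
    (hc : Fresh c (A ++ B)) :
    SEq C (A ++ B) (A ++ [⟨c, o, s⟩, ⟨c, !o, s⟩] ++ B) := by
  refine (SEq.rotate A B).trans ?_
  have h1 : Fresh c (B ++ A) := by
    intro p hp
    apply hc
    simp only [List.mem_append] at hp ⊢
    tauto
  refine (SEq.of (SMove.first c o s (B ++ A) hC h1)).trans ?_
  have h2 := SEq.rotate (C := C) ([⟨c, o, s⟩, ⟨c, !o, s⟩] ++ B) A
  simpa [List.append_assoc] using h2

theorem SEq.ctx2 {C : Finset ℕ} (A B D : Word) {c d : ℕ} (o s b₁ b₂ : Bool) (hcC : c ∈ C)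
    (hdC : d ∈ C) (hcd : c ≠ d) (hc : Fresh c (A ++ B ++ D)) (hd : Fresh d (A ++ B ++ D)) :
    SEq C (A ++ B ++ D)
      (A ++ inOrder b₁ ⟨c, o, s⟩ ⟨d, o, !s⟩ ++ B ++ inOrder b₂ ⟨c, !o, s⟩ ⟨d, !o, !s⟩ ++ D) := by
  have key : ∀ (c d : ℕ) (s b : Bool), c ∈ C → d ∈ C → c ≠ d → Fresh c (A ++ B ++ D) →
      Fresh d (A ++ B ++ D) → SEq C (A ++ B ++ D)
      (A ++ [⟨c, o, s⟩, ⟨d, o, !s⟩] ++ B ++ inOrder b ⟨c, !o, s⟩ ⟨d, !o, !s⟩ ++ D) := by
    intro c d s b hcC hdC hcd hc hd
    have h0 := SEq.rotate (C := C) A (B ++ D)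
    rw [← List.append_assoc] at h0
    refine h0.trans ?_
    have e1 : ∀ {x : ℕ}, Fresh x (A ++ B ++ D) → Fresh x (B ++ (D ++ A)) := by
      intro x hx p hp
      apply hx
      simp only [List.mem_append] at hp ⊢
      tauto
    have h1 := SEq.of (SMove.second c d o s b B (D ++ A) hcC hdC hcd (e1 hc) (e1 hd))
    rw [List.append_assoc]
    refine h1.trans ?_
    have h2 := SEq.rotate (C := C)
      ([⟨c, o, s⟩, ⟨d, o, !s⟩] ++ B ++ inOrder b ⟨c, !o, s⟩ ⟨d, !o, !s⟩ ++ D) A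
    simpa [List.append_assoc] using h2
  cases b₁
  · have h := key d c (!s) (!b₂) hdC hcC hcd.symm hd hc
    rw [Bool.not_not] at h
    have e : inOrder (!b₂) ⟨d, !o, !s⟩ ⟨c, !o, s⟩ = inOrder b₂ ⟨c, !o, s⟩ ⟨d, !o, !s⟩ := by
      cases b₂ <;> rfl
    rw [e] at h
    exact h
  · exact key c d s b₂ hcC hdC hcd hc hd

/-- Creation of two crossings next to (before or after) the letters `q` and `q'`. -/
theorem SEq.insPair {C : Finset ℕ} {w : Word} {q q' : Pass} (hqq : q ≠ q') (hq : w.count q = 1)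
    (hq' : w.count q' = 1) {c d : ℕ} (o s b₁ b₂ : Bool) (hcC : c ∈ C) (hdC : d ∈ C) (hcd : c ≠ d)
    (hc : Fresh c w) (hd : Fresh d w) {a₁ a₂ a₁' a₂' : Word} (ha : a₁ ++ a₂ = [q])
    (ha' : a₁' ++ a₂' = [q']) :
    SEq C w (w.flatMap (put2 q q' (a₁ ++ inOrder b₁ ⟨c, o, s⟩ ⟨d, o, !s⟩ ++ a₂)
      (a₁' ++ inOrder b₂ ⟨c, !o, s⟩ ⟨d, !o, !s⟩ ++ a₂'))) := by
  have fix : ∀ (A : Word) (X Y : Word), q ∉ A → q' ∉ A → A.flatMap (put2 q q' X Y) = A := by
    intro A X Y h1 h2
    apply flatMap_fixed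
    intro p hp
    have e1 : p ≠ q := by
      rintro rfl
      exact h1 hp
    have e2 : p ≠ q' := by
      rintro rfl
      exact h2 hp
    unfold put2
    rw [if_neg e1, if_neg e2]
  rcases split2 hqq hq hq' with ⟨A, B, D, rfl, h1, h2, h3, h4, h5, h6⟩ |
    ⟨A, B, D, rfl, h1, h2, h3, h4, h5, h6⟩
  · have e : A ++ q :: B ++ q' :: D = (A ++ a₁) ++ (a₂ ++ B ++ a₁') ++ (a₂' ++ D) := by
      have : A ++ q :: B ++ q' :: D = A ++ [q] ++ B ++ [q'] ++ D := by simp
      rw [this, ← ha, ← ha']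
      simp [List.append_assoc]
    have e2 : (A ++ q :: B ++ q' :: D).flatMap
        (put2 q q' (a₁ ++ inOrder b₁ ⟨c, o, s⟩ ⟨d, o, !s⟩ ++ a₂)
          (a₁' ++ inOrder b₂ ⟨c, !o, s⟩ ⟨d, !o, !s⟩ ++ a₂')) =
        (A ++ a₁) ++ inOrder b₁ ⟨c, o, s⟩ ⟨d, o, !s⟩ ++ (a₂ ++ B ++ a₁') ++
          inOrder b₂ ⟨c, !o, s⟩ ⟨d, !o, !s⟩ ++ (a₂' ++ D) := by
      rw [List.flatMap_append, List.flatMap_append, List.flatMap_cons, List.flatMap_cons,
        fix A _ _ h1 h4, fix B _ _ h2 h5, fix D _ _ h3 h6]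
      have g1 : put2 q q' (a₁ ++ inOrder b₁ ⟨c, o, s⟩ ⟨d, o, !s⟩ ++ a₂)
          (a₁' ++ inOrder b₂ ⟨c, !o, s⟩ ⟨d, !o, !s⟩ ++ a₂') q =
          a₁ ++ inOrder b₁ ⟨c, o, s⟩ ⟨d, o, !s⟩ ++ a₂ := by simp [put2]
      have g2 : put2 q q' (a₁ ++ inOrder b₁ ⟨c, o, s⟩ ⟨d, o, !s⟩ ++ a₂)
          (a₁' ++ inOrder b₂ ⟨c, !o, s⟩ ⟨d, !o, !s⟩ ++ a₂') q' =
          a₁' ++ inOrder b₂ ⟨c, !o, s⟩ ⟨d, !o, !s⟩ ++ a₂' := by
        unfold put2
        rw [if_neg hqq.symm, if_pos rfl]
      rw [g1, g2]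
      simp [List.append_assoc]
    rw [e2]
    rw [e] at hc hd
    have := SEq.ctx2 (C := C) (A ++ a₁) (a₂ ++ B ++ a₁') (a₂' ++ D) o s b₁ b₂ hcC hdC hcd hc hd
    rw [← e] at this
    exact this
  · have e : A ++ q' :: B ++ q :: D = (A ++ a₁') ++ (a₂' ++ B ++ a₁) ++ (a₂ ++ D) := by
      have : A ++ q' :: B ++ q :: D = A ++ [q'] ++ B ++ [q] ++ D := by simp
      rw [this, ← ha, ← ha']
      simp [List.append_assoc]
    have e2 : (A ++ q' :: B ++ q :: D).flatMap
        (put2 q q' (a₁ ++ inOrder b₁ ⟨c, o, s⟩ ⟨d, o, !s⟩ ++ a₂)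
          (a₁' ++ inOrder b₂ ⟨c, !o, s⟩ ⟨d, !o, !s⟩ ++ a₂')) =
        (A ++ a₁') ++ inOrder b₂ ⟨c, !o, s⟩ ⟨d, !o, !s⟩ ++ (a₂' ++ B ++ a₁) ++
          inOrder b₁ ⟨c, o, s⟩ ⟨d, o, !s⟩ ++ (a₂ ++ D) := by
      rw [List.flatMap_append, List.flatMap_append, List.flatMap_cons, List.flatMap_cons,
        fix A _ _ h1 h4, fix B _ _ h2 h5, fix D _ _ h3 h6]
      have g1 : put2 q q' (a₁ ++ inOrder b₁ ⟨c, o, s⟩ ⟨d, o, !s⟩ ++ a₂)
          (a₁' ++ inOrder b₂ ⟨c, !o, s⟩ ⟨d, !o, !s⟩ ++ a₂') q =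
          a₁ ++ inOrder b₁ ⟨c, o, s⟩ ⟨d, o, !s⟩ ++ a₂ := by simp [put2]
      have g2 : put2 q q' (a₁ ++ inOrder b₁ ⟨c, o, s⟩ ⟨d, o, !s⟩ ++ a₂)
          (a₁' ++ inOrder b₂ ⟨c, !o, s⟩ ⟨d, !o, !s⟩ ++ a₂') q' =
          a₁' ++ inOrder b₂ ⟨c, !o, s⟩ ⟨d, !o, !s⟩ ++ a₂' := by
        unfold put2
        rw [if_neg hqq.symm, if_pos rfl]
      rw [g1, g2]
      simp [List.append_assoc]
    rw [e2]
    rw [e] at hc hd
    have := SEq.ctx2 (C := C) (A ++ a₁') (a₂' ++ B ++ a₁) (a₂ ++ D) (!o) s b₂ b₁ hcC hdC hcd hc hd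
    rw [← e, Bool.not_not] at this
    exact this

/-- Creation of a kink next to the letter `q`. -/
theorem SEq.insKink {C : Finset ℕ} {w : Word} {q : Pass} (hq : w.count q = 1) {c : ℕ} (o s : Bool)
    (hcC : c ∈ C) (hc : Fresh c w) :
    SEq C w (w.flatMap (put1 q ([⟨c, o, s⟩, ⟨c, !o, s⟩] ++ [q]))) := by
  obtain ⟨A, B, rfl, h1, h2⟩ := exists_split hq
  have fix : ∀ (A : Word) (X : Word), q ∉ A → A.flatMap (put1 q X) = A := by
    intro A X h1
    apply flatMap_fixed
    intro p hp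
    have e1 : p ≠ q := by
      rintro rfl
      exact h1 hp
    unfold put1
    rw [if_neg e1]
  rw [List.flatMap_append, List.flatMap_cons, fix A _ h1, fix B _ h2]
  have := SEq.ctx1 (C := C) A (q :: B) o s hcC hc
  simpa [put1] using this

/-- The third move in the middle of a word. -/
theorem REq.hole3 {w : Word} {α β γ : Pass} (hαβ : α ≠ β) (hαγ : α ≠ γ) (hβγ : β ≠ γ)
    (hα : w.count α = 1) (hβ : w.count β = 1) (hγ : w.count γ = 1) {x y z : ℕ}
    (hxy : x ≠ y) (hxz : x ≠ z) (hyz : y ≠ z)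
    (hw : ∀ p ∈ w, p ≠ α → p ≠ β → p ≠ γ → p.name ≠ x ∧ p.name ≠ y ∧ p.name ≠ z)
    (a b c t m l : Bool) (h₁ : t = m ↔ b = c) (h₂ : l = m ↔ a = b) :
    REq
      (w.flatMap (put3 α β γ (inOrder t ⟨x, true, a⟩ ⟨y, true, b⟩)
        (inOrder m ⟨x, false, a⟩ ⟨z, true, c⟩) (inOrder l ⟨y, false, b⟩ ⟨z, false, c⟩)))
      (w.flatMap (put3 α β γ (inOrder (!t) ⟨x, true, a⟩ ⟨y, true, b⟩)
        (inOrder (!m) ⟨x, false, a⟩ ⟨z, true, c⟩) (inOrder (!l) ⟨y, false, b⟩ ⟨z, false, c⟩))) := by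
  obtain ⟨A, B, rfl, hA, hB⟩ := exists_split hα
  have key : ∀ D : Word, α ∉ D → D.count β = 1 → D.count γ = 1 →
      (∀ p ∈ D, p ≠ β → p ≠ γ → p.name ≠ x ∧ p.name ≠ y ∧ p.name ≠ z) →
      REq
        ((α :: D).flatMap (put3 α β γ (inOrder t ⟨x, true, a⟩ ⟨y, true, b⟩)
          (inOrder m ⟨x, false, a⟩ ⟨z, true, c⟩) (inOrder l ⟨y, false, b⟩ ⟨z, false, c⟩)))
        ((α :: D).flatMap (put3 α β γ (inOrder (!t) ⟨x, true, a⟩ ⟨y, true, b⟩)
          (inOrder (!m) ⟨x, false, a⟩ ⟨z, true, c⟩)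
          (inOrder (!l) ⟨y, false, b⟩ ⟨z, false, c⟩))) := by
    intro D hD hβ hγ hD'
    have fix : ∀ (A : Word) (X Y Z : Word), α ∉ A → β ∉ A → γ ∉ A →
        A.flatMap (put3 α β γ X Y Z) = A := by
      intro A X Y Z h1 h2 h3
      apply flatMap_fixed
      intro p hp
      have e1 : p ≠ α := by
        rintro rfl
        exact h1 hp
      have e2 : p ≠ β := by
        rintro rfl
        exact h2 hp
      have e3 : p ≠ γ := by
        rintro rfl
        exact h3 hp
      unfold put3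
      rw [if_neg e1, if_neg e2, if_neg e3]
    have gα : ∀ X Y Z : Word, put3 α β γ X Y Z α = X := fun X Y Z => by simp [put3]
    have gβ : ∀ X Y Z : Word, put3 α β γ X Y Z β = Y := fun X Y Z => by
      unfold put3
      rw [if_neg hαβ.symm, if_pos rfl]
    have gγ : ∀ X Y Z : Word, put3 α β γ X Y Z γ = Z := fun X Y Z => by
      unfold put3
      rw [if_neg hαγ.symm, if_neg hβγ.symm, if_pos rfl]
    rcases split2 hβγ hβ hγ with ⟨U, V, W, rfl, h1, h2, h3, h4, h5, h6⟩ |
      ⟨U, V, W, rfl, h1, h2, h3, h4, h5, h6⟩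
    · simp only [List.mem_append, List.mem_cons, not_or] at hD
      have f1 : ∀ p ∈ U ++ V ++ W, p.name ≠ x ∧ p.name ≠ y ∧ p.name ≠ z := by
        intro p hp
        have hne : p ≠ β ∧ p ≠ γ := by
          constructor
          · rintro rfl
            simp only [List.mem_append] at hp
            tauto
          · rintro rfl
            simp only [List.mem_append] at hp
            tauto
        refine hD' p ?_ hne.1 hne.2
        simp only [List.mem_append, List.mem_cons] at hp ⊢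
        tauto
      simp only [List.flatMap_append, List.flatMap_cons, gα, gβ, gγ]
      rw [fix U _ _ _ hD.1.1 h1 h4, fix V _ _ _ hD.1.2.2 h2 h5, fix W _ _ _ hD.2.2 h3 h6,
        fix U _ _ _ hD.1.1 h1 h4, fix V _ _ _ hD.1.2.2 h2 h5, fix W _ _ _ hD.2.2 h3 h6]
      have := REq.of (Move.third x y z a b c t m l U V W hxy hxz hyz (fun p hp => (f1 p hp).1)
        (fun p hp => (f1 p hp).2.1) (fun p hp => (f1 p hp).2.2) h₁ h₂)
      simpa only [List.append_assoc] using this
    · simp only [List.mem_append, List.mem_cons, not_or] at hD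
      have f1 : ∀ p ∈ U ++ V ++ W, p.name ≠ x ∧ p.name ≠ y ∧ p.name ≠ z := by
        intro p hp
        have hne : p ≠ β ∧ p ≠ γ := by
          constructor
          · rintro rfl
            simp only [List.mem_append] at hp
            tauto
          · rintro rfl
            simp only [List.mem_append] at hp
            tauto
        refine hD' p ?_ hne.1 hne.2
        simp only [List.mem_append, List.mem_cons] at hp ⊢
        tauto
      simp only [List.flatMap_append, List.flatMap_cons, gα, gβ, gγ]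
      rw [fix U _ _ _ hD.1.1 h1 h4, fix V _ _ _ hD.1.2.2 h2 h5, fix W _ _ _ hD.2.2 h3 h6,
        fix U _ _ _ hD.1.1 h1 h4, fix V _ _ _ hD.1.2.2 h2 h5, fix W _ _ _ hD.2.2 h3 h6]
      have := REq.of (Move.third' x y z a b c t m l U V W hxy hxz hyz (fun p hp => (f1 p hp).1)
        (fun p hp => (f1 p hp).2.1) (fun p hp => (f1 p hp).2.2) h₁ h₂)
      simpa only [List.append_assoc] using this
  have hrot : ∀ f : Pass → Word, REq ((A ++ α :: B).flatMap f) ((α :: (B ++ A)).flatMap f) := by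
    intro f
    have : (α :: (B ++ A)).flatMap f = (α :: B).flatMap f ++ A.flatMap f := by
      rw [← List.flatMap_append]
      rfl
    rw [this, List.flatMap_append]
    exact REq.rotate _ _
  refine (hrot _).trans (REq.trans ?_ (hrot _).symm)
  rw [List.count_append, List.count_cons_of_ne hαβ] at hβ
  rw [List.count_append, List.count_cons_of_ne hαγ] at hγ
  refine key (B ++ A) (by simp [hA, hB]) (by rw [List.count_append]; omega)
    (by rw [List.count_append]; omega) ?_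
  intro p hp h1 h2
  refine hw p ?_ ?_ h1 h2
  · simp only [List.mem_append, List.mem_cons] at hp ⊢
    tauto
  · rintro rfl
    simp only [List.mem_append] at hp
    tauto

end Pool.Agent.R811.VK
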