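import Pool.Agent.R811.VK.Third2

set_option autoImplicit false

namespace Pool.Agent.R811.VK

open Relation

section

variable {g : Pass → Word} {K₀ E H : Word} {N S : Finset ℕ}

theorem Tri.adm (D : Tri) {N : Finset ℕ} (hx : D.x ∉ N) (hy : D.y ∉ N) (hz : D.z ∉ N)
    (hn₁ : D.n₁ ∉ N) (hn₂ : D.n₂ ∉ N) (hb₁ : D.b₁ ∉ N) (hb₂ : D.b₂ ∉ N) : Adm N D.σ₂ := by
  refine adm_put3 ?_ hz hz ?_ ?_ ?_
  · unfold Tri.T2
    split_ifs
    · exact hy
    · exact hx
  · intro p hp
    unfold Tri.A₂ at hp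
    split_ifs at hp <;> simp only [List.mem_cons, List.not_mem_nil, or_false] at hp <;>
      rcases hp with rfl | rfl | rfl | rfl | rfl <;> assumption
  · intro p hp
    unfold Tri.B₂ at hp
    split_ifs at hp <;> simp only [List.mem_cons, List.not_mem_nil, or_false] at hp <;>
      rcases hp with rfl | rfl | rfl <;> assumption
  · intro p hp
    unfold Tri.C₂ at hp
    split_ifs at hp <;> simp only [List.mem_cons, List.not_mem_nil, or_false] at hp <;>
      rcases hp with rfl | rfl | rfl <;> assumption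

theorem Trk.third (hg : Good g) {j : Bool} {x y z : ℕ} {a b c t m l : Bool} {U V W : Word}
    (hxy : x ≠ y) (hxz : x ≠ z) (hyz : y ≠ z)
    (hf : ∀ p, (p ∈ U ∨ p ∈ V ∨ p ∈ W) → p.name ≠ x ∧ p.name ≠ y ∧ p.name ≠ z)
    (h₁ : t = m ↔ b = c) (h₂ : l = m ↔ a = b)
    (h : Trk g K₀ (asm j (inOrder t ⟨x, true, a⟩ ⟨y, true, b⟩) U
      (inOrder m ⟨x, false, a⟩ ⟨z, true, c⟩) V (inOrder l ⟨y, false, b⟩ ⟨z, false, c⟩) W) H N S)
    (hK : IsGauss K₀)
    (hE : IsGauss (asm j (inOrder t ⟨x, true, a⟩ ⟨y, true, b⟩) U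
      (inOrder m ⟨x, false, a⟩ ⟨z, true, c⟩) V (inOrder l ⟨y, false, b⟩ ⟨z, false, c⟩) W)) :
    ∃ H' N' S', Trk g K₀ (asm j (inOrder (!t) ⟨x, true, a⟩ ⟨y, true, b⟩) U
        (inOrder (!m) ⟨x, false, a⟩ ⟨z, true, c⟩) V
        (inOrder (!l) ⟨y, false, b⟩ ⟨z, false, c⟩) W) H' N' S' := by
  obtain ⟨K, hK'⟩ := exists_new (N ∪ {x, y, z}) H
  have hKn : ∀ i, K ≤ i → i ∉ N ∧ i ≠ x ∧ i ≠ y ∧ i ≠ z ∧ Fresh i H := by
    intro i hi
    obtain ⟨h1, h2⟩ := hK' i hi
    simp only [Finset.mem_union, Finset.mem_insert, Finset.mem_singleton, not_or] at h1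
    tauto
  obtain ⟨k1, k2, k3, k4, k5⟩ := hKn K le_rfl
  obtain ⟨l1, l2, l3, l4, l5⟩ := hKn (K + 1) (by omega)
  obtain ⟨m1, m2, m3, m4, m5⟩ := hKn (K + 2) (by omega)
  obtain ⟨o1, o2, o3, o4, o5⟩ := hKn (K + 3) (by omega)
  let D : Tri := { x := x, y := y, z := z, n₁ := K, n₂ := K + 1, b₁ := K + 2, b₂ := K + 3,
                   a := a, b := b, c := c, t := t, m := m, l := l,
                   hn := by
                    simp only [List.nodup_cons, List.mem_cons, List.not_mem_nil, or_false, not_or,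
                      not_false_eq_true, List.nodup_nil, and_true]
                    refine ⟨⟨hxy, hxz, k2.symm, l2.symm, m2.symm, o2.symm⟩,
                      ⟨hyz, k3.symm, l3.symm, m3.symm, o3.symm⟩,
                      ⟨k4.symm, l4.symm, m4.symm, o4.symm⟩, ⟨?_, ?_, ?_⟩, ⟨?_, ?_⟩, ?_⟩ <;>
                    omega }
  have hUm : ∀ p, (p ∈ U ∨ p ∈ V ∨ p ∈ W) →
      p ∈ H ∧ p.name ∉ N := fun p hp => h.mem p (mem_asm.2 (Or.inr hp))
  have hX : D.X ∈ H ∧ x ∉ N := h.mem D.X (mem_asm.2 (Or.inl (Or.inl (by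
    cases t <;> simp [inOrder, Tri.X, D]))))
  have hY : D.Y ∈ H ∧ y ∉ N := h.mem D.Y (mem_asm.2 (Or.inl (Or.inl (by
    cases t <;> simp [inOrder, Tri.Y, D]))))
  have hZ : D.Z ∈ H ∧ z ∉ N := h.mem D.Z (mem_asm.2 (Or.inl (Or.inr (Or.inl (by
    cases m <;> simp [inOrder, Tri.Z, D])))))
  have hZ' : D.Z' ∈ H ∧ z ∉ N := h.mem D.Z' (mem_asm.2 (Or.inl (Or.inr (Or.inr (by
    cases l <;> simp [inOrder, Tri.Z', D])))))
  have hT2 : D.T2 ∈ H := by
    unfold Tri.T2
    split_ifs
    · exact hY.1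
    · exact hX.1
  have hadm : Adm N D.σ₂ := D.adm hX.2 hY.2 hZ.2 k1 l1 m1 o1
  have hf' : ∀ p, (p ∈ U ∨ p ∈ V ∨ p ∈ W) →
      p.name ≠ D.x ∧ p.name ≠ D.y ∧ p.name ≠ D.z ∧
      p.name ≠ D.n₁ ∧ p.name ≠ D.n₂ ∧ p.name ≠ D.b₁ ∧ p.name ≠ D.b₂ := by
    intro p hp
    obtain ⟨r1, r2, r3⟩ := hf p hp
    have r4 := (hUm p hp).1
    exact ⟨r1, r2, r3, k5 p r4, l5 p r4, m5 p r4, o5 p r4⟩
  -- the word after the move, with the new names
  set E' := asm j (inOrder (!D.t) D.nX D.nY) U (inOrder (!D.m) D.nX' D.Z) V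
      (inOrder (!D.l) D.nY' D.Z') W with hE'
  set f : Equiv.Perm ℕ := Equiv.swap x K * Equiv.swap y (K + 1) with hfdef
  have f1 : f K = x := by
    rw [hfdef, Equiv.Perm.mul_apply, Equiv.swap_apply_of_ne_of_ne k3 (by omega),
      Equiv.swap_apply_right]
  have f2 : f (K + 1) = y := by
    rw [hfdef, Equiv.Perm.mul_apply, Equiv.swap_apply_right,
      Equiv.swap_apply_of_ne_of_ne hxy.symm k3.symm]
  have f3 : f z = z := by
    rw [hfdef, Equiv.Perm.mul_apply, Equiv.swap_apply_of_ne_of_ne hyz.symm l4.symm,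
      Equiv.swap_apply_of_ne_of_ne hxz.symm k4.symm]
  have f4 : ∀ n, n ≠ x → n ≠ y → n ≠ K → n ≠ K + 1 → f n = n := by
    intro n r1 r2 r3 r4
    rw [hfdef, Equiv.Perm.mul_apply, Equiv.swap_apply_of_ne_of_ne r2 r4,
      Equiv.swap_apply_of_ne_of_ne r1 r3]
  have hmap : E'.map (rename f) = asm j (inOrder (!t) ⟨x, true, a⟩ ⟨y, true, b⟩) U
        (inOrder (!m) ⟨x, false, a⟩ ⟨z, true, c⟩) V
        (inOrder (!l) ⟨y, false, b⟩ ⟨z, false, c⟩) W := by
    have hfix : ∀ Q : Word, (∀ p ∈ Q, p ∈ U ∨ p ∈ V ∨ p ∈ W) → Q.map (rename f) = Q := by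
      intro Q hQ
      apply map_rename_fixed
      intro p hp
      obtain ⟨r1, r2, r3, r4, r5, -⟩ := hf' p (hQ p hp)
      exact f4 _ r1 r2 r4 r5
    rw [hE', asm_map, inOrder_map, inOrder_map, inOrder_map, hfix U (fun p hp => Or.inl hp),
      hfix V (fun p hp => Or.inr (Or.inl hp)), hfix W (fun p hp => Or.inr (Or.inr hp))]
    simp only [rename, Tri.nX, Tri.nY, Tri.nX', Tri.nY', Tri.Z, Tri.Z', D, f1, f2, f3]
  have hGf : IsGauss (asm j (inOrder (!t) ⟨x, true, a⟩ ⟨y, true, b⟩) U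
        (inOrder (!m) ⟨x, false, a⟩ ⟨z, true, c⟩) V
        (inOrder (!l) ⟨y, false, b⟩ ⟨z, false, c⟩) W) :=
    (gauss_move (Move.asm hxy hxz hyz hf h₁ h₂)).1 hE
  have hG' : IsGauss E' := by
    rw [gauss_map f, hmap]
    exact hGf
  have hreq : REq H (H.flatMap D.σ₂) :=
    D.reqH (h.gaussH hK) hT2 hZ.1 hZ'.1 k5 l5 m5 o5 h₁ h₂
  have hE2 : SEq (N ∪ {x, y, K + 2, K + 3})
      ((asm j (inOrder t ⟨x, true, a⟩ ⟨y, true, b⟩) U
      (inOrder m ⟨x, false, a⟩ ⟨z, true, c⟩) V (inOrder l ⟨y, false, b⟩ ⟨z, false, c⟩)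
        W).flatMap D.σ₂) E' := by
    refine SEq.symm ?_
    exact D.seqE hf' (C := N ∪ {x, y, K + 2, K + 3})
      (Finset.mem_union_right _ (by simp [D])) (Finset.mem_union_right _ (by simp [D]))
      (Finset.mem_union_right _ (by simp [D])) (Finset.mem_union_right _ (by simp [D])) hG'
  have hEn : ∀ p ∈ E', p.name ∉ N ∪ {x, y, K + 2, K + 3} := by
    intro p hp
    rw [hE', mem_asm] at hp
    have q1 : K ∉ N ∪ {x, y, K + 2, K + 3} := by
      simp only [Finset.mem_union, Finset.mem_insert, Finset.mem_singleton, not_or]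
      exact ⟨k1, k2, k3, by omega, by omega⟩
    have q2 : K + 1 ∉ N ∪ {x, y, K + 2, K + 3} := by
      simp only [Finset.mem_union, Finset.mem_insert, Finset.mem_singleton, not_or]
      exact ⟨l1, l2, l3, by omega, by omega⟩
    have q3 : z ∉ N ∪ {x, y, K + 2, K + 3} := by
      simp only [Finset.mem_union, Finset.mem_insert, Finset.mem_singleton, not_or]
      exact ⟨hZ.2, hxz.symm, hyz.symm, m4.symm, o4.symm⟩
    rcases hp with (hp | hp | hp) | hp
    · rcases inOrder_names hp with rfl | rfl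
      · exact q1
      · exact q2
    · rcases inOrder_names hp with rfl | rfl
      · exact q1
      · exact q3
    · rcases inOrder_names hp with rfl | rfl
      · exact q2
      · exact q3
    · obtain ⟨r1, r2, r3, r4, r5, r6, r7⟩ := hf' p hp
      simp only [Finset.mem_union, Finset.mem_insert, Finset.mem_singleton, not_or]
      exact ⟨(hUm p hp).2, r1, r2, r6, r7⟩
  have hstep := h.step hg hadm hreq (N' := N ∪ {x, y, K + 2, K + 3}) Finset.subset_union_left hE2
    (by
      intro p hp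
      by_cases hpn : p.name ∈ N ∪ {x, y, K + 2, K + 3}
      · exact Or.inl hpn
      · exact Or.inr ((hE2.mem_iff hpn).1 hp))
    (by
      intro p hp
      exact ⟨(hE2.mem_iff (hEn p hp)).2 hp, hEn p hp⟩)
  have hfin := hstep.map hg f
  rw [hmap] at hfin
  exact ⟨_, _, _, hfin⟩

/-- The diagrams which can be reached. -/
def Inv (g : Pass → Word) (K₀ E : Word) : Prop := ∃ H N S, Trk g K₀ E H N S

theorem asm_true {T U M V L W : Word} : asm true T U M V L W = T ++ U ++ M ++ V ++ L ++ W := rfl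
theorem asm_false {T U M V L W : Word} : asm false T U M V L W = T ++ U ++ L ++ V ++ M ++ W := rfl

theorem Inv.move (hg : Good g) (hK : IsGauss K₀) {E E' : Word} (hm : Move E E')
    (hE : IsGauss E) (hne : E ≠ []) (h : Inv g K₀ E) : Inv g K₀ E' := by
  obtain ⟨H, N, S, h⟩ := h
  cases hm with
  | rotate U V =>
    refine ⟨H, N, S, h.step0 (Finset.Subset.refl N) (SEq.rotate U V) ?_ ?_⟩
    · intro p hp
      right
      rw [List.mem_append] at hp ⊢
      exact hp.symm
    · intro p hp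
      have : p ∈ U ++ V := by
        rw [List.mem_append] at hp ⊢
        exact hp.symm
      exact ⟨this, (h.mem p this).2⟩
  | rename f _ => exact ⟨_, _, _, h.map hg f⟩
  | first c o s _ hc => exact h.first hg hK hE hne o s hc
  | second c d o s b U V hcd hc hd => exact h.second hg hK hE hne o s b hcd hc hd
  | third x y z a b c t m l U V W hxy hxz hyz hx hy hz h₁ h₂ =>
    have hf : ∀ p, (p ∈ U ∨ p ∈ V ∨ p ∈ W) → p.name ≠ x ∧ p.name ≠ y ∧ p.name ≠ z := by
      intro p hp
      have : p ∈ U ++ V ++ W := by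
        simp only [List.mem_append]
        tauto
      exact ⟨hx p this, hy p this, hz p this⟩
    exact h.third hg (j := true) hxy hxz hyz hf h₁ h₂ hK hE
  | third' x y z a b c t m l U V W hxy hxz hyz hx hy hz h₁ h₂ =>
    have hf : ∀ p, (p ∈ U ∨ p ∈ V ∨ p ∈ W) → p.name ≠ x ∧ p.name ≠ y ∧ p.name ≠ z := by
      intro p hp
      have : p ∈ U ++ V ++ W := by
        simp only [List.mem_append]
        tauto
      exact ⟨hx p this, hy p this, hz p this⟩
    exact h.third hg (j := false) hxy hxz hyz hf h₁ h₂ hK hE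

theorem Inv.move_symm (hg : Good g) (hK : IsGauss K₀) {E E' : Word} (hm : Move E' E)
    (hE : IsGauss E) (hne : E ≠ []) (h : Inv g K₀ E) : Inv g K₀ E' := by
  cases hm with
  | rotate U V => exact Inv.move hg hK (Move.rotate V U) hE hne h
  | rename f _ =>
    have h1 := Inv.move hg hK (Move.rename f.symm _) hE hne h
    rw [List.map_map] at h1
    have e : rename f.symm ∘ rename f = id := by
      funext p
      simp [rename]
    rwa [e, List.map_id] at h1
  | first c o s _ hc =>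
    obtain ⟨H, N, S, h⟩ := h
    refine ⟨H, insert c N, S, h.step0 (Finset.subset_insert c N)
      (SEq.of (SMove.first c o s _ (Finset.mem_insert_self c N) hc)).symm ?_ ?_⟩
    · intro p hp
      simp only [List.mem_append, List.mem_cons, List.not_mem_nil, or_false] at hp
      rcases hp with (rfl | rfl) | hp
      · exact Or.inl (Finset.mem_insert_self c N)
      · exact Or.inl (Finset.mem_insert_self c N)
      · exact Or.inr hp
    · intro p hp
      have hp' : p ∈ ([⟨c, o, s⟩, ⟨c, !o, s⟩] : Word) ++ E' := by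
        rw [List.mem_append]
        exact Or.inr hp
      refine ⟨hp', ?_⟩
      rw [Finset.mem_insert, not_or]
      exact ⟨hc p hp, (h.mem p hp').2⟩
  | second c d o s b U V hcd hc hd =>
    obtain ⟨H, N, S, h⟩ := h
    refine ⟨H, insert c (insert d N), S, h.step0
      ((Finset.subset_insert d N).trans (Finset.subset_insert c _))
      (SEq.of (SMove.second c d o s b U V (Finset.mem_insert_self c _)
        (Finset.mem_insert_of_mem (Finset.mem_insert_self d N)) hcd hc hd)).symm ?_ ?_⟩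
    · intro p hp
      simp only [List.mem_append, List.mem_cons, List.not_mem_nil, or_false] at hp
      rcases hp with (((rfl | rfl) | hp) | hp) | hp
      · exact Or.inl (Finset.mem_insert_self c _)
      · exact Or.inl (Finset.mem_insert_of_mem (Finset.mem_insert_self d N))
      · exact Or.inr (List.mem_append_left _ hp)
      · rcases inOrder_names hp with rfl | rfl
        · exact Or.inl (Finset.mem_insert_self c _)
        · exact Or.inl (Finset.mem_insert_of_mem (Finset.mem_insert_self d N))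
      · exact Or.inr (List.mem_append_right _ hp)
    · intro p hp
      have hp' : p ∈ ([⟨c, o, s⟩, ⟨d, o, !s⟩] : Word) ++ U ++
          inOrder b ⟨c, !o, s⟩ ⟨d, !o, !s⟩ ++ V := by
        simp only [List.mem_append] at hp ⊢
        tauto
      refine ⟨hp', ?_⟩
      rw [Finset.mem_insert, not_or, Finset.mem_insert, not_or]
      exact ⟨hc p hp, hd p hp, (h.mem p hp').2⟩
  | third x y z a b c t m l U V W hxy hxz hyz hx hy hz h₁ h₂ =>
    have h3 := Move.third x y z a b c (!t) (!m) (!l) U V W hxy hxz hyz hx hy hz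
      (by rw [← h₁]; cases t <;> cases m <;> simp) (by rw [← h₂]; cases l <;> cases m <;> simp)
    simp only [Bool.not_not] at h3
    exact Inv.move hg hK h3 hE hne h
  | third' x y z a b c t m l U V W hxy hxz hyz hx hy hz h₁ h₂ =>
    have h3 := Move.third' x y z a b c (!t) (!m) (!l) U V W hxy hxz hyz hx hy hz
      (by rw [← h₁]; cases t <;> cases m <;> simp) (by rw [← h₂]; cases l <;> cases m <;> simp)
    simp only [Bool.not_not] at h3
    exact Inv.move hg hK h3 hE hne h

theorem Inv.iff (hg : Good g) (hK : IsGauss K₀) {E E' : Word} (hm : REq E E')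
    (hE : IsGauss E) (hne : ¬ REq E []) : Inv g K₀ E ↔ Inv g K₀ E' := by
  induction hm with
  | rel E E' hm =>
    have hE' := (gauss_move hm).1 hE
    have h1 : E ≠ [] := by
      rintro rfl
      exact hne (REq.refl _)
    have h2 : E' ≠ [] := by
      rintro rfl
      exact hne (REq.of hm)
    exact ⟨Inv.move hg hK hm hE h1, Inv.move_symm hg hK hm hE' h2⟩
  | refl _ => exact Iff.rfl
  | symm E' E hm ih =>
    exact (ih ((gauss_req hm).2 hE) fun h => hne ((REq.symm hm).trans h)).symm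
  | trans E E₁ E' hm _ ih1 ih2 =>
    exact (ih1 hE hne).trans (ih2 ((gauss_req hm).1 hE) fun h => hne (REq.trans hm h))

end

end Pool.Agent.R811.VK
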