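import Mathlib

/-!
# Virtual knots as Gauss diagrams modulo Reidemeister moves

A virtual knot diagram is described by its (signed, directed) Gauss diagram: travelling once around the
diagram, one writes down the passages through the classical crossings; virtual crossings are not
recorded.  Two virtual knot diagrams are related by planar isotopies, virtual and mixed moves if and
only if they have the same Gauss diagram, and every Gauss diagram comes from a virtual knot diagram; so
virtual knots are the same as Gauss diagrams modulo the classical Reidemeister moves, which may be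
performed wherever the endpoints of the chords are adjacent (Goussarov, Polyak, Viro; Kauffman).
-/

set_option autoImplicit false

namespace Pool.Agent.R811.VK

/-- A passage through a classical crossing of an oriented virtual knot diagram: the name of the
crossing, `upper = true` if the passage is on the upper strand and `upper = false` if it is on the lower
strand, and the sign of the crossing (`pos = true` if it is positive). -/
structure Pass where
  /-- the name of the crossing -/
  name : ℕ
  /-- upper or lower strand -/
  upper : Bool
  /-- the sign of the crossing -/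
  pos : Bool
deriving DecidableEq

/-- Sequences of passages. -/
abbrev Word : Type := List Pass

/-- The sequence of passages of a virtual knot diagram: every crossing is passed exactly once on its
upper strand and once on its lower strand, and these two passages carry the same sign. -/
def IsGauss (w : Word) : Prop :=
  (w.map fun p => (p.name, p.upper)).Nodup ∧ ∀ p ∈ w, (⟨p.name, !p.upper, p.pos⟩ : Pass) ∈ w

/-- The crossing `c` does not occur in `w`. -/
def Fresh (c : ℕ) (w : Word) : Prop := ∀ p ∈ w, p.name ≠ c

/-- Renaming of a crossing. -/
def rename (f : ℕ → ℕ) (p : Pass) : Pass := ⟨f p.name, p.upper, p.pos⟩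

/-- The two passages `p`, `q`, in this order if `b` is true and in the opposite order otherwise. -/
def inOrder (b : Bool) (p q : Pass) : Word := if b then [p, q] else [q, p]

/-- The moves: change of the base point, renaming of the crossings, and the three Reidemeister moves
with all orientations.

* `first`: a kink with the crossing `c` is created;
* `second`: two crossings `c`, `d` of opposite signs with the same upper strand are created between two
  pieces of the knot; the two pieces may have parallel (`b = true`) or antiparallel (`b = false`)
  directions;
* `third`, `third'`: a triangle formed by a top, a middle and a bottom strand; `x` is the crossing of the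
  top and the middle strand, `y` the one of the top and the bottom strand, `z` the one of the middle and
  the bottom strand, with the signs `a`, `b`, `c`. The top strand meets `x` before `y` iff `t` is true,
  the middle strand meets `x` before `z` iff `m` is true, and the bottom strand meets `y` before `z` iff
  `l` is true. These data belong to a triangle in the plane iff `h₁` and `h₂` hold; the move exchanges
  the order of the two crossings on each of the three strands. The three strands follow each other in
  the order top, middle, bottom (`third`) or top, bottom, middle (`third'`) on the knot. -/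
inductive Move : Word → Word → Prop
  | rotate (U V : Word) : Move (U ++ V) (V ++ U)
  | rename (f : Equiv.Perm ℕ) (w : Word) : Move w (w.map (rename f))
  | first (c : ℕ) (o s : Bool) (w : Word) (hc : Fresh c w) :
      Move w ([⟨c, o, s⟩, ⟨c, !o, s⟩] ++ w)
  | second (c d : ℕ) (o s b : Bool) (U V : Word) (hcd : c ≠ d) (hc : Fresh c (U ++ V))
      (hd : Fresh d (U ++ V)) :
      Move (U ++ V)
        ([⟨c, o, s⟩, ⟨d, o, !s⟩] ++ U ++ inOrder b ⟨c, !o, s⟩ ⟨d, !o, !s⟩ ++ V)
  | third (x y z : ℕ) (a b c t m l : Bool) (U V W : Word) (hxy : x ≠ y) (hxz : x ≠ z)
      (hyz : y ≠ z) (hx : Fresh x (U ++ V ++ W)) (hy : Fresh y (U ++ V ++ W))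
      (hz : Fresh z (U ++ V ++ W)) (h₁ : t = m ↔ b = c) (h₂ : l = m ↔ a = b) :
      Move
        (inOrder t ⟨x, true, a⟩ ⟨y, true, b⟩ ++ U ++ inOrder m ⟨x, false, a⟩ ⟨z, true, c⟩ ++ V ++
          inOrder l ⟨y, false, b⟩ ⟨z, false, c⟩ ++ W)
        (inOrder (!t) ⟨x, true, a⟩ ⟨y, true, b⟩ ++ U ++
          inOrder (!m) ⟨x, false, a⟩ ⟨z, true, c⟩ ++ V ++
          inOrder (!l) ⟨y, false, b⟩ ⟨z, false, c⟩ ++ W)
  | third' (x y z : ℕ) (a b c t m l : Bool) (U V W : Word) (hxy : x ≠ y) (hxz : x ≠ z)
      (hyz : y ≠ z) (hx : Fresh x (U ++ V ++ W)) (hy : Fresh y (U ++ V ++ W))
      (hz : Fresh z (U ++ V ++ W)) (h₁ : t = m ↔ b = c) (h₂ : l = m ↔ a = b) :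
      Move
        (inOrder t ⟨x, true, a⟩ ⟨y, true, b⟩ ++ U ++ inOrder l ⟨y, false, b⟩ ⟨z, false, c⟩ ++ V ++
          inOrder m ⟨x, false, a⟩ ⟨z, true, c⟩ ++ W)
        (inOrder (!t) ⟨x, true, a⟩ ⟨y, true, b⟩ ++ U ++
          inOrder (!l) ⟨y, false, b⟩ ⟨z, false, c⟩ ++ V ++
          inOrder (!m) ⟨x, false, a⟩ ⟨z, true, c⟩ ++ W)

/-- Virtual knot diagrams (their Gauss diagrams). -/
def Diagram : Type := {w : Word // IsGauss w}

/-- Two diagrams represent the same virtual knot. -/
def Equivalent : Diagram → Diagram → Prop := Relation.EqvGen fun D E => Move D.1 E.1

/-- Virtual knots: the classes of diagrams with respect to the equivalence relation generated by the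
moves. -/
def VirtualKnot : Type := Quot fun D E : Diagram => Move D.1 E.1

/-- The virtual knot represented by a diagram. -/
def Diagram.knot (D : Diagram) : VirtualKnot := Quot.mk _ D

/-- The crossingless circle. -/
def unknot : Diagram := ⟨[], by simp [IsGauss]⟩

/-- The trivial knot. -/
def trivialKnot : VirtualKnot := unknot.knot

/-- `c` is (the name of) a classical crossing of `D`. -/
def IsCrossing (D : Diagram) (c : ℕ) : Prop := ∃ p ∈ D.1, p.name = c

/-- The passage after the change of its crossing: the upper strand becomes the lower one, and the sign
of the crossing changes. -/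
def changed (p : Pass) : Pass := ⟨p.name, !p.upper, !p.pos⟩

/-- The crossings in `S` are changed. -/
def changeWord (S : Finset ℕ) (w : Word) : Word :=
  w.map fun p => if p.name ∈ S then changed p else p

/-- The crossings in `S` are virtualised: they become virtual crossings, which are not recorded. -/
def virtualizeWord (S : Finset ℕ) (w : Word) : Word := w.filter fun p => p.name ∉ S

theorem change_isGauss (S : Finset ℕ) {w : Word} (h : IsGauss w) : IsGauss (changeWord S w) := by
  obtain ⟨h1, h2⟩ := h
  refine ⟨?_, ?_⟩
  · unfold changeWord
    rw [List.map_map]
    have h3 : w.Nodup := List.Nodup.of_map _ h1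
    refine List.Nodup.map_on ?_ h3
    intro p hp q hq hpq
    have key : (p.name, p.upper) = (q.name, q.upper) := by
      simp only [Function.comp] at hpq
      have hn : p.name = q.name := by
        have := congrArg Prod.fst hpq
        split_ifs at this <;> simpa [changed] using this
      have ho : p.upper = q.upper := by
        have := congrArg Prod.snd hpq
        rw [hn] at this
        split_ifs at this <;> simpa [changed] using this
      rw [hn, ho]
    exact List.inj_on_of_nodup_map h1 hp hq key
  · intro p hp
    unfold changeWord at hp ⊢
    rw [List.mem_map] at hp ⊢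
    obtain ⟨q, hq, rfl⟩ := hp
    refine ⟨_, h2 q hq, ?_⟩
    by_cases hS : q.name ∈ S
    · simp [hS, changed]
    · simp [hS]

theorem virtualize_isGauss (S : Finset ℕ) {w : Word} (h : IsGauss w) :
    IsGauss (virtualizeWord S w) := by
  obtain ⟨h1, h2⟩ := h
  refine ⟨?_, ?_⟩
  · exact h1.sublist (List.Sublist.map _ List.filter_sublist)
  · intro p hp
    unfold virtualizeWord at hp ⊢
    rw [List.mem_filter] at hp ⊢
    exact ⟨h2 p hp.1, hp.2⟩

/-- The diagram `D` after the change of the crossings in `S`. -/
def Diagram.change (S : Finset ℕ) (D : Diagram) : Diagram :=
  ⟨changeWord S D.1, change_isGauss S D.2⟩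

/-- The diagram `D` after the virtualization of the crossings in `S`. -/
def Diagram.virtualize (S : Finset ℕ) (D : Diagram) : Diagram :=
  ⟨virtualizeWord S D.1, virtualize_isGauss S D.2⟩

theorem knot_eq_iff {D E : Diagram} : D.knot = E.knot ↔ Equivalent D E := Quot.eq

end Pool.Agent.R811.VK
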