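import Pool.Agent.R811.VK.Chain

set_option autoImplicit false
set_option linter.unusedSimpArgs false

namespace Pool.Agent.R811.VK

open Relation

/-- Operations on one crossing for which the argument works. -/
structure Oper (g : Pass → Word) : Prop where
  good : Good g
  gauss : ∀ (w : Word) (S : Finset ℕ), IsGauss w → IsGauss (w.flatMap (act g S))
  init : ∀ (w : Word) (c : ℕ), IsGauss w → Inv g w (w.flatMap (act g {c}))

theorem act_union {g : Pass → Word} (hg : Good g) {S T : Finset ℕ} (h : Disjoint S T) (w : Word) :
    w.flatMap (act g (S ∪ T)) = (w.flatMap (act g S)).flatMap (act g T) := by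
  rw [List.flatMap_assoc]
  apply List.flatMap_congr
  intro p _
  by_cases hp : p.name ∈ S
  · have h1 : p.name ∉ T := Finset.disjoint_left.1 h hp
    have h2 : (act g S p).flatMap (act g T) = act g S p := by
      apply flatMap_fixed
      intro q hq
      unfold act at hq ⊢
      rw [if_pos hp] at hq
      rw [if_neg]
      rw [hg.names p q hq]
      exact h1
    rw [h2]
    unfold act
    rw [if_pos hp, if_pos (Finset.mem_union_left _ hp)]
  · unfold act
    by_cases hp' : p.name ∈ T
    · rw [if_pos (Finset.mem_union_right _ hp'), if_neg hp]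
      simp [hp']
    · rw [if_neg, if_neg hp]
      · simp [hp']
      · rw [Finset.mem_union]
        tauto

/-- `w` becomes trivial after the operation at at most `n` crossings of one diagram. -/
def Unk (g : Pass → Word) (w : Word) (n : ℕ) : Prop :=
  ∃ (H : Word) (T : Finset ℕ), REq w H ∧ T.card ≤ n ∧ REq (H.flatMap (act g T)) []

/-- `w` becomes trivial after the operation at `n` crossings, with moves in between. -/
inductive Sqn (g : Pass → Word) : Word → ℕ → Prop
  | done (w : Word) (h : REq w []) : Sqn g w 0
  | moves (w w' : Word) (n : ℕ) (h : REq w w') (h' : Sqn g w' n) : Sqn g w n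
  | op (w : Word) (S : Finset ℕ) (n : ℕ) (h : Sqn g (w.flatMap (act g S)) n) :
      Sqn g w (n + S.card)

theorem Unk.single {g : Pass → Word} (hg : Oper g) {w : Word} (hw : IsGauss w) {c n : ℕ}
    (h : Unk g (w.flatMap (act g {c})) n) : Unk g w (n + 1) := by
  obtain ⟨E, T, h1, h2, h3⟩ := h
  by_cases h0 : REq (w.flatMap (act g {c})) []
  · exact ⟨w, {c}, REq.refl w, by simp, h0⟩
  · have h4 : Inv g w E :=
      (Inv.iff hg.good hw h1 (hg.gauss w {c} hw) h0).1 (hg.init w c hw)
    obtain ⟨H, N, S, h5⟩ := h4
    set T' := T.filter (fun i => i ∉ N) with hT'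
    have h6 : E.flatMap (act g T) = E.flatMap (act g T') := by
      apply List.flatMap_congr
      intro p hp
      have := (h5.mem p hp).2
      unfold act
      by_cases hpT : p.name ∈ T
      · rw [if_pos hpT, if_pos (Finset.mem_filter.2 ⟨hpT, this⟩)]
      · rw [if_neg hpT, if_neg fun h => hpT (Finset.mem_filter.1 h).1]
    have h7 : Disjoint S T' := by
      rw [Finset.disjoint_left]
      intro i hi hi'
      exact (Finset.mem_filter.1 hi').2 (h5.sub hi)
    have h8 : Adm N (act g T') := by
      constructor
      · intro p hp
        have h9 : p.name ∉ T' := fun h => (Finset.mem_filter.1 h).2 hp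
        unfold act
        rw [if_neg h9]
      · intro p hp q hq
        unfold act at hq
        split_ifs at hq
        · rw [hg.good.names p q hq]
          exact hp
        · rw [List.mem_singleton] at hq
          rw [hq]
          exact hp
    refine ⟨H, S ∪ T', h5.req, ?_, ?_⟩
    · have := Finset.card_union_le S T'
      have := h5.card
      have : T'.card ≤ T.card := Finset.card_filter_le _ _
      omega
    · rw [act_union hg.good h7]
      refine ((h5.red.subst h8).toREq).trans ?_
      rw [← h6]
      exact h3

theorem Unk.op {g : Pass → Word} (hg : Oper g) (S : Finset ℕ) {w : Word} (hw : IsGauss w) {n : ℕ}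
    (h : Unk g (w.flatMap (act g S)) n) : Unk g w (n + S.card) := by
  induction S using Finset.induction_on generalizing w with
  | empty =>
    have : w.flatMap (act g ∅) = w := by
      apply flatMap_fixed
      intro p _
      simp [act]
    rw [this] at h
    simpa using h
  | insert c S hc ih =>
    rw [Finset.insert_eq, act_union hg.good (by simpa using hc)] at h
    have h1 := ih (hg.gauss w {c} hw) h
    have h2 := Unk.single hg hw h1
    rw [Finset.card_insert_of_notMem hc]
    exact h2

theorem Unk.of_sqn {g : Pass → Word} (hg : Oper g) {w : Word} {n : ℕ} (h : Sqn g w n)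
    (hw : IsGauss w) : Unk g w n := by
  induction h with
  | done w h => exact ⟨w, ∅, REq.refl w, by simp, by
      have : w.flatMap (act g ∅) = w := by
        apply flatMap_fixed
        intro p _
        simp [act]
      rwa [this]⟩
  | moves w w' n h _ ih =>
    obtain ⟨H, T, h1, h2, h3⟩ := ih ((gauss_req h).1 hw)
    exact ⟨H, T, h.trans h1, h2, h3⟩
  | op w S n _ ih => exact Unk.op hg S hw (ih (hg.gauss w S hw))

/-! ### Virtualization -/

/-- The virtualization of one crossing. -/
def gV : Pass → Word := fun _ => []

theorem virtualizeWord_eq (S : Finset ℕ) (w : Word) :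
    w.flatMap (act gV S) = virtualizeWord S w := by
  induction w with
  | nil => rfl
  | cons p w ih =>
    rw [List.flatMap_cons, ih]
    unfold virtualizeWord
    by_cases hp : p.name ∈ S
    · rw [List.filter_cons_of_neg (by simpa using hp)]
      simp [act, gV, hp]
    · rw [List.filter_cons_of_pos (by simpa using hp)]
      simp [act, gV, hp]

theorem oper_gV : Oper gV where
  good := ⟨fun p q hq => by simp [gV] at hq, fun f p => rfl⟩
  gauss w S hw := by
    rw [virtualizeWord_eq]
    exact virtualize_isGauss S hw
  init w c hw := by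
    refine ⟨w, {c}, {c}, REq.refl w, Finset.Subset.refl _, by simp, ?_, ?_, SEq.refl _⟩
    · intro p hp
      rw [virtualizeWord_eq] at hp
      unfold virtualizeWord at hp
      rw [List.mem_filter] at hp
      exact ⟨hp.1, by simpa using hp.2⟩
    · intro p hp
      by_cases h : p.name ∈ ({c} : Finset ℕ)
      · exact Or.inl h
      · right
        rw [virtualizeWord_eq]
        unfold virtualizeWord
        rw [List.mem_filter]
        exact ⟨hp, by simpa using h⟩

/-! ### Crossing changes -/

/-- The change of one crossing. -/
def gC : Pass → Word := fun p => [changed p]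

theorem changeWord_eq (S : Finset ℕ) (w : Word) :
    w.flatMap (act gC S) = changeWord S w := by
  induction w with
  | nil => rfl
  | cons p w ih =>
    rw [List.flatMap_cons, ih]
    unfold changeWord
    by_cases hp : p.name ∈ S
    · simp [act, gC, hp]
    · simp [act, gC, hp]

theorem init_gC (w : Word) (c : ℕ) (hw : IsGauss w) : Inv gC w (w.flatMap (act gC {c})) := by
  by_cases hc : Fresh c w
  · have h1 : w.flatMap (act gC {c}) = w := by
      apply flatMap_fixed
      intro p hp
      unfold act
      rw [if_neg]
      rw [Finset.mem_singleton]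
      exact hc p hp
    rw [h1]
    refine ⟨w, ∅, ∅, REq.refl w, Finset.Subset.refl _, by simp, ?_, ?_, ?_⟩
    · intro p hp
      exact ⟨hp, by simp⟩
    · intro p hp
      exact Or.inr hp
    · have h2 : w.flatMap (act gC ∅) = w := by
        apply flatMap_fixed
        intro p _
        simp [act]
      rw [h2]
      exact SEq.refl _
  · unfold Fresh at hc
    push Not at hc
    obtain ⟨p₀, hp₀, hpc⟩ := hc
    obtain ⟨K, hK⟩ := exists_new {c} w
    obtain ⟨k1, k2⟩ := hK K le_rfl
    obtain ⟨l1, l2⟩ := hK (K + 1) (by omega)
    rw [Finset.mem_singleton] at k1 l1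
    generalize hs : p₀.pos = s at *
    generalize hf : K + 1 = f at *
    have hKf : K ≠ f := by omega
    have hm : (⟨c, true, s⟩ : Pass) ∈ w ∧ (⟨c, false, s⟩ : Pass) ∈ w := by
      have h1 := hw.2 p₀ hp₀
      rcases p₀ with ⟨n, o, s'⟩
      simp only at hpc hs
      subst hpc hs
      cases o
      · exact ⟨h1, hp₀⟩
      · exact ⟨hp₀, h1⟩
    have hcase : ∀ p ∈ w, (p.name ≠ c ∧ p.name ≠ K ∧ p.name ≠ f) ∨ p = ⟨c, true, s⟩ ∨
        p = ⟨c, false, s⟩ := by
      intro p hp
      by_cases h : p.name = c
      · right
        rcases hu : p.upper with _ | _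
        · exact Or.inr (hw.eq_of hp hm.2 h hu)
        · exact Or.inl (hw.eq_of hp hm.1 h hu)
      · exact Or.inl ⟨h, k2 p hp, l2 p hp⟩
    -- the renamed diagram
    set w₁ := w.map (rename (Equiv.swap c f)) with hw₁
    have hG₁ : IsGauss w₁ := (gauss_map _ w).1 hw
    have hr1 : REq w w₁ := REq.of (Move.rename _ w)
    have m1 : (⟨f, true, s⟩ : Pass) ∈ w₁ := by
      rw [hw₁, List.mem_map]
      exact ⟨_, hm.1, by simp [rename]⟩
    have m2 : (⟨f, false, s⟩ : Pass) ∈ w₁ := by
      rw [hw₁, List.mem_map]
      exact ⟨_, hm.2, by simp [rename]⟩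
    have fr1 : Fresh c w₁ := by
      have : Fresh (Equiv.swap c f f) w₁ := fresh_map l2
      rwa [Equiv.swap_apply_right] at this
    have fr2 : Fresh K w₁ := by
      have : Fresh (Equiv.swap c f K) w₁ := fresh_map k2
      rwa [Equiv.swap_apply_of_ne_of_ne k1 hKf] at this
    set τ₁ := put2 ⟨f, true, s⟩ ⟨f, false, s⟩
      ([] ++ inOrder true ⟨c, false, !s⟩ ⟨K, false, !!s⟩ ++ [⟨f, true, s⟩])
      ([] ++ inOrder true ⟨c, !false, !s⟩ ⟨K, !false, !!s⟩ ++ [⟨f, false, s⟩]) with hτ₁
    have hr2 : REq w₁ (w₁.flatMap τ₁) := by
      exact (SEq.insPair (C := {c, K}) (by simp) (hG₁.count m1) (hG₁.count m2) false (!s) true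
        true (by simp) (by simp) (Ne.symm k1) fr1 fr2 (a₁ := []) (a₂ := [⟨f, true, s⟩])
        (a₁' := []) (a₂' := [⟨f, false, s⟩]) rfl rfl).toREq
    set E₀ := w.flatMap (act gC {c}) with hE₀
    have hG₀ : IsGauss E₀ := by
      rw [hE₀, changeWord_eq]
      exact change_isGauss _ hw
    have m3 : (⟨c, false, !s⟩ : Pass) ∈ E₀ := by
      rw [hE₀, List.mem_flatMap]
      exact ⟨_, hm.1, by simp [act, gC, changed]⟩
    have m4 : (⟨c, true, !s⟩ : Pass) ∈ E₀ := by
      rw [hE₀, List.mem_flatMap]
      exact ⟨_, hm.2, by simp [act, gC, changed]⟩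
    have hEn : ∀ p ∈ E₀, p.name ≠ K ∧ p.name ≠ f := by
      intro p hp
      rw [hE₀, List.mem_flatMap] at hp
      obtain ⟨q, hq, hp⟩ := hp
      have : p.name = q.name := by
        unfold act at hp
        split_ifs at hp
        · simp only [gC, List.mem_singleton] at hp
          rw [hp]
          rfl
        · rw [List.mem_singleton] at hp
          rw [hp]
      rw [this]
      exact ⟨k2 q hq, l2 q hq⟩
    set τ₂ := put2 ⟨c, false, !s⟩ ⟨c, true, !s⟩
      ([⟨c, false, !s⟩] ++ inOrder true ⟨K, true, !s⟩ ⟨f, true, !!s⟩ ++ [])
      ([⟨c, true, !s⟩] ++ inOrder true ⟨K, !true, !s⟩ ⟨f, !true, !!s⟩ ++ []) with hτ₂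
    have hr3 : SEq {K, f} E₀ (E₀.flatMap τ₂) := by
      exact SEq.insPair (C := {K, f}) (by simp) (hG₀.count m3) (hG₀.count m4) true (!s) true
        true (by simp) (by simp) hKf (fun p hp => (hEn p hp).1) (fun p hp => (hEn p hp).2)
        (a₁ := [⟨c, false, !s⟩]) (a₂ := []) (a₁' := [⟨c, true, !s⟩]) (a₂' := []) rfl rfl
    have k1' : c ≠ K := Ne.symm k1
    have l1' : c ≠ f := Ne.symm l1
    have hKf' : f ≠ K := Ne.symm hKf
    have heq : (w₁.flatMap τ₁).flatMap (act gC {K}) = E₀.flatMap τ₂ := by
      rw [hw₁, hE₀, List.flatMap_map, List.flatMap_assoc, List.flatMap_assoc]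
      apply List.flatMap_congr
      intro p hp
      rcases hcase p hp with ⟨h1, h2, h3⟩ | rfl | rfl
      · have h4 : rename (Equiv.swap c f) p = p := by
          unfold rename
          rw [Equiv.swap_apply_of_ne_of_ne h1 h3]
        have h5 : p ≠ ⟨f, true, s⟩ := by
          rintro rfl
          exact h3 rfl
        have h6 : p ≠ ⟨f, false, s⟩ := by
          rintro rfl
          exact h3 rfl
        have h7 : p ≠ ⟨c, false, !s⟩ := by
          rintro rfl
          exact h1 rfl
        have h8 : p ≠ ⟨c, true, !s⟩ := by
          rintro rfl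
          exact h1 rfl
        rw [h4]
        simp [hτ₁, hτ₂, put2, act, h1, h2, h3, h5, h6, h7, h8]
      · simp [hτ₁, hτ₂, put2, act, rename, gC, changed, inOrder, k1, k1', l1, l1', hKf, hKf']
      · simp [hτ₁, hτ₂, put2, act, rename, gC, changed, inOrder, k1, k1', l1, l1', hKf, hKf']
    refine ⟨w₁.flatMap τ₁, {K, f}, {K}, hr1.trans hr2, by simp, by simp, ?_, ?_, ?_⟩
    · intro p hp
      refine ⟨?_, ?_⟩
      · rw [hE₀, List.mem_flatMap] at hp
        obtain ⟨q, hq, hp⟩ := hp
        rw [hw₁, List.flatMap_map, List.mem_flatMap]
        refine ⟨q, hq, ?_⟩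
        rcases hcase q hq with ⟨h1, h2, h3⟩ | rfl | rfl
        · have h4 : rename (Equiv.swap c f) q = q := by
            unfold rename
            rw [Equiv.swap_apply_of_ne_of_ne h1 h3]
          have h5 : q ≠ ⟨f, true, s⟩ := by
            rintro rfl
            exact h3 rfl
          have h6 : q ≠ ⟨f, false, s⟩ := by
            rintro rfl
            exact h3 rfl
          rw [h4]
          simp only [act, Finset.mem_singleton, h1, if_false, List.mem_singleton] at hp
          simp [hτ₁, put2, h5, h6, hp]
        · simp only [act, gC, changed, Finset.mem_singleton, if_true, List.mem_singleton,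
            Bool.not_true] at hp
          simp [hτ₁, put2, rename, inOrder, hp]
        · simp only [act, gC, changed, Finset.mem_singleton, if_true, List.mem_singleton,
            Bool.not_false] at hp
          simp [hτ₁, put2, rename, inOrder, hp]
      · have := hEn p hp
        simp only [Finset.mem_insert, Finset.mem_singleton, not_or]
        exact this
    · intro p hp
      rw [hw₁, List.flatMap_map, List.mem_flatMap] at hp
      obtain ⟨q, hq, hp⟩ := hp
      rcases hcase q hq with ⟨h1, h2, h3⟩ | rfl | rfl
      · have h4 : rename (Equiv.swap c f) q = q := by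
          unfold rename
          rw [Equiv.swap_apply_of_ne_of_ne h1 h3]
        have h5 : q ≠ ⟨f, true, s⟩ := by
          rintro rfl
          exact h3 rfl
        have h6 : q ≠ ⟨f, false, s⟩ := by
          rintro rfl
          exact h3 rfl
        rw [h4] at hp
        simp only [hτ₁, put2, h5, h6, if_false, List.mem_singleton] at hp
        right
        rw [hE₀, List.mem_flatMap]
        refine ⟨q, hq, ?_⟩
        simp [act, h1, hp]
      · simp only [hτ₁, put2, rename, inOrder, Equiv.swap_apply_left, if_true, List.nil_append,
          List.mem_append, List.mem_cons, List.not_mem_nil, or_false, Bool.not_not] at hp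
        rcases hp with (hp | hp) | hp
        · right
          rw [hp]
          exact m3
        · left
          rw [hp]
          simp
        · left
          rw [hp]
          simp
      · have h9 : (rename (Equiv.swap c f) ⟨c, false, s⟩) ≠ ⟨f, true, s⟩ := by
          simp [rename]
        have h10 : (rename (Equiv.swap c f) ⟨c, false, s⟩) = ⟨f, false, s⟩ := by
          simp [rename]
        rw [h10] at hp
        simp only [hτ₁, put2, inOrder, Pass.mk.injEq, Bool.false_eq_true, and_false, false_and,
          if_true, if_false, List.nil_append, and_true,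
          List.mem_append, List.mem_cons, List.not_mem_nil, or_false, Bool.not_not,
          Bool.not_false] at hp
        rcases hp with (hp | hp) | hp
        · right
          rw [hp]
          exact m4
        · left
          rw [hp]
          simp
        · left
          rw [hp]
          simp
    · rw [heq]
      exact hr3.symm

theorem oper_gC : Oper gC where
  good := by
    refine ⟨fun p q hq => ?_, fun f p => rfl⟩
    simp only [gC, List.mem_singleton] at hq
    rw [hq]
    rfl
  gauss w S hw := by
    rw [changeWord_eq]
    exact change_isGauss S hw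
  init := init_gC

end Pool.Agent.R811.VK
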