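import Pool.Agent.R811.VK.Basic

set_option autoImplicit false

namespace Pool.Agent.R811.VK

open Relation

/-! ### Gauss words -/

theorem IsGauss.perm {w w' : Word} (h : w.Perm w') (hw : IsGauss w) : IsGauss w' := by
  refine ⟨(h.map _).nodup_iff.1 hw.1, fun p hp => ?_⟩
  exact h.mem_iff.1 (hw.2 p (h.mem_iff.2 hp))

theorem gauss_perm {w w' : Word} (h : w.Perm w') : IsGauss w ↔ IsGauss w' :=
  ⟨IsGauss.perm h, IsGauss.perm h.symm⟩

theorem gauss_pair {w : Word} {c : ℕ} (o s : Bool) (hc : Fresh c w) :
    IsGauss (⟨c, o, s⟩ :: ⟨c, !o, s⟩ :: w) ↔ IsGauss w := by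
  constructor
  · rintro ⟨h1, h2⟩
    refine ⟨?_, ?_⟩
    · rw [List.map_cons, List.map_cons, List.nodup_cons, List.nodup_cons] at h1
      exact h1.2.2
    · intro p hp
      have h3 := h2 p (by simp [hp])
      have h4 := hc p hp
      simp only [List.mem_cons, Pass.mk.injEq] at h3
      rcases h3 with h3 | h3 | h3
      · exact absurd h3.1 h4
      · exact absurd h3.1 h4
      · exact h3
  · rintro ⟨h1, h2⟩
    refine ⟨?_, ?_⟩
    · rw [List.map_cons, List.map_cons, List.nodup_cons, List.nodup_cons]
      refine ⟨?_, ?_, h1⟩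
      · intro h
        simp only [List.mem_cons, List.mem_map, Prod.mk.injEq] at h
        rcases h with h | ⟨p, hp, h, -⟩
        · have := h.2
          cases o <;> simp at this
        · exact hc p hp h
      · intro h
        simp only [List.mem_map, Prod.mk.injEq] at h
        obtain ⟨p, hp, h, -⟩ := h
        exact hc p hp h
    · intro p hp
      simp only [List.mem_cons] at hp
      rcases hp with rfl | rfl | hp
      · simp
      · simp
      · have := h2 p hp
        simp [this]

theorem gauss_map (f : Equiv.Perm ℕ) (w : Word) : IsGauss w ↔ IsGauss (w.map (rename f)) := by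
  have key : ∀ (f : Equiv.Perm ℕ) (w : Word), IsGauss w → IsGauss (w.map (rename f)) := by
    rintro f w ⟨h1, h2⟩
    refine ⟨?_, ?_⟩
    · have : (w.map (rename f)).map (fun p => (p.name, p.upper)) =
          (w.map fun p => (p.name, p.upper)).map (fun q => (f q.1, q.2)) := by
        simp [List.map_map, Function.comp_def, rename]
      rw [this]
      refine List.Nodup.map ?_ h1
      rintro ⟨a, b⟩ ⟨a', b'⟩ h
      simpa using h
    · intro p hp
      rw [List.mem_map] at hp ⊢
      obtain ⟨q, hq, rfl⟩ := hp
      exact ⟨_, h2 q hq, rfl⟩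
  refine ⟨key f w, fun h => ?_⟩
  have := key f.symm _ h
  rw [List.map_map] at this
  have e : rename f.symm ∘ rename f = id := by
    funext p
    simp [rename]
  rwa [e, List.map_id] at this

theorem inOrder_perm (b : Bool) (p q : Pass) : (inOrder b p q).Perm [p, q] := by
  cases b
  · exact List.Perm.swap _ _ _
  · exact List.Perm.refl _

theorem gauss_move {w w' : Word} (h : Move w w') : IsGauss w ↔ IsGauss w' := by
  cases h with
  | rotate U V => exact gauss_perm List.perm_append_comm
  | rename f w => exact gauss_map f w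
  | first c o s w hc => exact (gauss_pair o s hc).symm
  | second c d o s b U V hcd hc hd =>
    have h1 : List.Perm ([⟨c, o, s⟩, ⟨d, o, !s⟩] ++ U ++ inOrder b ⟨c, !o, s⟩ ⟨d, !o, !s⟩ ++ V)
        (⟨c, o, s⟩ :: ⟨c, !o, s⟩ :: ⟨d, o, !s⟩ :: ⟨d, !o, !s⟩ :: (U ++ V)) := by
      rw [List.perm_iff_count]
      intro p
      have := (inOrder_perm b ⟨c, !o, s⟩ ⟨d, !o, !s⟩).count_eq p
      simp only [List.count_append, List.count_cons, List.count_nil, this]
      omega
    rw [gauss_perm h1, gauss_pair o s, gauss_pair o (!s) hd]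
    intro p hp
    simp only [List.mem_cons] at hp
    rcases hp with rfl | rfl | hp
    · exact hcd.symm
    · exact hcd.symm
    · exact hc p hp
  | third x y z a b c t m l U V W =>
    apply gauss_perm
    rw [List.perm_iff_count]
    intro p
    simp only [List.count_append, (inOrder_perm _ _ _).count_eq p]
  | third' x y z a b c t m l U V W =>
    apply gauss_perm
    rw [List.perm_iff_count]
    intro p
    simp only [List.count_append, (inOrder_perm _ _ _).count_eq p]

theorem gauss_req {w w' : Word} (h : REq w w') : IsGauss w ↔ IsGauss w' := by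
  induction h with
  | rel _ _ h => exact gauss_move h
  | refl _ => exact Iff.rfl
  | symm _ _ _ ih => exact ih.symm
  | trans _ _ _ _ _ ih1 ih2 => exact ih1.trans ih2

theorem equivalent_of_req {w w' : Word} (h : REq w w') (hw : IsGauss w) (hw' : IsGauss w') :
    Equivalent ⟨w, hw⟩ ⟨w', hw'⟩ := by
  induction h with
  | rel _ _ h => exact EqvGen.rel _ _ h
  | refl _ => exact EqvGen.refl _
  | symm _ _ _ ih => exact EqvGen.symm _ _ (ih hw' hw)
  | trans a b c h1 _ ih1 ih2 =>
    have hb : IsGauss b := (gauss_req h1).1 hw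
    have e1 : Equivalent ⟨a, hw⟩ ⟨b, hb⟩ := ih1 hw hb
    have e2 : Equivalent ⟨b, hb⟩ ⟨c, hw'⟩ := ih2 hb hw'
    exact EqvGen.trans _ _ _ e1 e2

theorem req_of_equivalent {D E : Diagram} (h : Equivalent D E) : REq D.1 E.1 := by
  induction h with
  | rel _ _ h => exact REq.of h
  | refl _ => exact REq.refl _
  | symm _ _ _ ih => exact ih.symm
  | trans _ _ _ _ _ ih1 ih2 => exact ih1.trans ih2

theorem IsGauss.nodup {w : Word} (h : IsGauss w) : w.Nodup := List.Nodup.of_map _ h.1

theorem IsGauss.count {w : Word} (h : IsGauss w) {p : Pass} (hp : p ∈ w) : w.count p = 1 :=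
  List.count_eq_one_of_mem h.nodup hp

theorem IsGauss.eq_of {w : Word} (h : IsGauss w) {p q : Pass} (hp : p ∈ w) (hq : q ∈ w)
    (hn : p.name = q.name) (hu : p.upper = q.upper) : p = q :=
  List.inj_on_of_nodup_map h.1 hp hq (by simp [hn, hu])

end Pool.Agent.R811.VK
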