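import Pool.Agent.R811.VK.Track

set_option autoImplicit false

namespace Pool.Agent.R811.VK

open Relation

section

variable {g : Pass → Word} {K₀ E H : Word} {N S : Finset ℕ}

theorem Trk.grow (hg : Good g) (h : Trk g K₀ E H N S) {τ : Pass → Word} (hτ : Adm N τ)
    (hH : REq H (H.flatMap τ)) : Trk g K₀ (E.flatMap τ) (H.flatMap τ) N S := by
  refine h.step hg hτ hH (Finset.Subset.refl N) (SEq.refl _) (fun p hp => Or.inr hp)
    (fun p hp => ⟨hp, ?_⟩)
  rw [List.mem_flatMap] at hp
  obtain ⟨q, hq, hp⟩ := hp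
  exact hτ.2 q (h.mem q hq).2 p hp

theorem Trk.gaussH (h : Trk g K₀ E H N S) (hK : IsGauss K₀) : IsGauss H :=
  (gauss_req h.req).1 hK

theorem Trk.freshH (h : Trk g K₀ E H N S) {c : ℕ} (hc : Fresh c E) (hN : c ∉ N) : Fresh c H := by
  intro p hp hpc
  rcases h.cov p hp with h1 | h1
  · exact hN (hpc ▸ h1)
  · exact hc p h1 hpc

theorem adm_put1 {N : Finset ℕ} {q : Pass} {A : Word} (hq : q.name ∉ N)
    (hA : ∀ p ∈ A, p.name ∉ N) : Adm N (put1 q A) := by
  constructor
  · intro p hp
    unfold put1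
    rw [if_neg]
    rintro rfl
    exact hq hp
  · intro p hp r hr
    unfold put1 at hr
    split_ifs at hr
    · exact hA r hr
    · rw [List.mem_singleton] at hr
      rw [hr]
      exact hp

theorem adm_put2 {N : Finset ℕ} {q q' : Pass} {A B : Word} (hq : q.name ∉ N) (hq' : q'.name ∉ N)
    (hA : ∀ p ∈ A, p.name ∉ N) (hB : ∀ p ∈ B, p.name ∉ N) : Adm N (put2 q q' A B) := by
  constructor
  · intro p hp
    unfold put2
    rw [if_neg, if_neg]
    · rintro rfl
      exact hq' hp
    · rintro rfl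
      exact hq hp
  · intro p hp r hr
    unfold put2 at hr
    split_ifs at hr
    · exact hA r hr
    · exact hB r hr
    · rw [List.mem_singleton] at hr
      rw [hr]
      exact hp

theorem adm_put3 {N : Finset ℕ} {q q' q'' : Pass} {A B C : Word} (hq : q.name ∉ N)
    (hq' : q'.name ∉ N) (hq'' : q''.name ∉ N)
    (hA : ∀ p ∈ A, p.name ∉ N) (hB : ∀ p ∈ B, p.name ∉ N) (hC : ∀ p ∈ C, p.name ∉ N) :
    Adm N (put3 q q' q'' A B C) := by
  constructor
  · intro p hp
    unfold put3
    rw [if_neg, if_neg, if_neg]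
    · rintro rfl
      exact hq'' hp
    · rintro rfl
      exact hq' hp
    · rintro rfl
      exact hq hp
  · intro p hp r hr
    unfold put3 at hr
    split_ifs at hr
    · exact hA r hr
    · exact hB r hr
    · exact hC r hr
    · rw [List.mem_singleton] at hr
      rw [hr]
      exact hp

theorem flatMap_put1_fixed {q : Pass} {A w : Word} (h : q ∉ w) : w.flatMap (put1 q A) = w := by
  apply flatMap_fixed
  intro p hp
  unfold put1
  rw [if_neg]
  rintro rfl
  exact h hp

theorem flatMap_put2_fixed {q q' : Pass} {A B w : Word} (h : q ∉ w) (h' : q' ∉ w) :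
    w.flatMap (put2 q q' A B) = w := by
  apply flatMap_fixed
  intro p hp
  unfold put2
  rw [if_neg, if_neg]
  · rintro rfl
    exact h' hp
  · rintro rfl
    exact h hp

theorem flatMap_put3_fixed {q q' q'' : Pass} {A B C w : Word} (h : q ∉ w) (h' : q' ∉ w)
    (h'' : q'' ∉ w) : w.flatMap (put3 q q' q'' A B C) = w := by
  apply flatMap_fixed
  intro p hp
  unfold put3
  rw [if_neg, if_neg, if_neg]
  · rintro rfl
    exact h'' hp
  · rintro rfl
    exact h' hp
  · rintro rfl
    exact h hp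

/-- Creation of a pair of crossings next to the letter `q`. -/
theorem SEq.insPair1 {C : Finset ℕ} {w : Word} {q : Pass} (hq : w.count q = 1) {c d : ℕ}
    (o s b₁ b₂ : Bool) (hcC : c ∈ C) (hdC : d ∈ C) (hcd : c ≠ d) (hc : Fresh c w)
    (hd : Fresh d w) :
    SEq C w (w.flatMap (put1 q (inOrder b₁ ⟨c, o, s⟩ ⟨d, o, !s⟩ ++
      inOrder b₂ ⟨c, !o, s⟩ ⟨d, !o, !s⟩ ++ [q]))) := by
  obtain ⟨A, B, rfl, h1, h2⟩ := exists_split hq
  rw [List.flatMap_append, List.flatMap_cons, flatMap_put1_fixed h1, flatMap_put1_fixed h2]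
  have := SEq.ctx2 (C := C) A [] (q :: B) o s b₁ b₂ hcC hdC hcd (by simpa using hc)
    (by simpa using hd)
  simpa [put1] using this

theorem inOrder_names {b : Bool} {p q r : Pass} (h : r ∈ inOrder b p q) : r = p ∨ r = q := by
  cases b <;> simp [inOrder] at h <;> tauto

theorem Trk.first (hg : Good g) (h : Trk g K₀ E H N S) (hK : IsGauss K₀) (hE : IsGauss E)
    (hne : E ≠ []) {c : ℕ} (o s : Bool) (hc : Fresh c E) :
    ∃ H' N' S', Trk g K₀ ([⟨c, o, s⟩, ⟨c, !o, s⟩] ++ E) H' N' S' := by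
  obtain ⟨H', N', S', h', hcN, -⟩ := h.avoid hg hc ∅
  obtain ⟨q, E₁, rfl⟩ := List.exists_cons_of_ne_nil hne
  have hq1 : q ∈ H' := (h'.mem q (by simp)).1
  have hq2 : q.name ∉ N' := (h'.mem q (by simp)).2
  have hq3 : q ∉ E₁ := (List.nodup_cons.1 hE.nodup).1
  have hadm : Adm N' (put1 q ([⟨c, o, s⟩, ⟨c, !o, s⟩] ++ [q])) := by
    refine adm_put1 hq2 ?_
    intro p hp
    simp only [List.mem_append, List.mem_cons, List.not_mem_nil, or_false] at hp
    rcases hp with (rfl | rfl) | rfl
    · exact hcN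
    · exact hcN
    · exact hq2
  have h1 := (SEq.insKink (C := {c}) ((h'.gaussH hK).count hq1) o s (by simp)
    (h'.freshH hc hcN)).toREq
  have h2 := h'.grow hg hadm h1
  refine ⟨H'.flatMap (put1 q ([⟨c, o, s⟩, ⟨c, !o, s⟩] ++ [q])), N', S', ?_⟩
  convert h2 using 1
  rw [List.flatMap_cons, flatMap_put1_fixed hq3]
  simp [put1]

theorem Trk.second (hg : Good g) {U V : Word} (h : Trk g K₀ (U ++ V) H N S) (hK : IsGauss K₀)
    (hE : IsGauss (U ++ V)) (hne : U ++ V ≠ []) {c d : ℕ} (o s b : Bool) (hcd : c ≠ d)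
    (hc : Fresh c (U ++ V)) (hd : Fresh d (U ++ V)) :
    ∃ H' N' S', Trk g K₀
      ([⟨c, o, s⟩, ⟨d, o, !s⟩] ++ U ++ inOrder b ⟨c, !o, s⟩ ⟨d, !o, !s⟩ ++ V) H' N' S' := by
  obtain ⟨H₁, N₁, S₁, h₁, hcN₁, -⟩ := h.avoid hg hc ∅
  obtain ⟨H', N', S', h', hdN, hx⟩ := h₁.avoid hg hd {c}
  have hcN : c ∉ N' := hx c (by simp) hcd hcN₁
  have hcH := h'.freshH hc hcN
  have hdH := h'.freshH hd hdN
  have hG := h'.gaussH hK
  have h7 : ∀ (q : Pass) (b₁ b₂ o : Bool), q.name ∉ N' → Adm N'
      (put1 q (inOrder b₁ ⟨c, o, s⟩ ⟨d, o, !s⟩ ++ inOrder b₂ ⟨c, !o, s⟩ ⟨d, !o, !s⟩ ++ [q])) := by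
    intro q b₁ b₂ o hq
    refine adm_put1 hq ?_
    intro p hp
    simp only [List.mem_append, List.mem_cons, List.not_mem_nil, or_false] at hp
    rcases hp with (hp | hp) | rfl
    · rcases inOrder_names hp with rfl | rfl
      · exact hcN
      · exact hdN
    · rcases inOrder_names hp with rfl | rfl
      · exact hcN
      · exact hdN
    · exact hq
  rcases U with _ | ⟨q, U⟩
  · rcases V with _ | ⟨q', V⟩
    · exact absurd rfl hne
    · simp only [List.nil_append] at h' hE
      have hq1 : q' ∈ H' := (h'.mem q' (by simp)).1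
      have hq2 : q'.name ∉ N' := (h'.mem q' (by simp)).2
      have hq3 : q' ∉ V := (List.nodup_cons.1 hE.nodup).1
      have h1 := (SEq.insPair1 (C := {c, d}) (hG.count hq1) o s true b (by simp) (by simp) hcd
        hcH hdH).toREq
      have h2 := h'.grow hg (h7 q' true b o hq2) h1
      refine ⟨H'.flatMap (put1 q' (inOrder true ⟨c, o, s⟩ ⟨d, o, !s⟩ ++
          inOrder b ⟨c, !o, s⟩ ⟨d, !o, !s⟩ ++ [q'])), N', S', ?_⟩
      convert h2 using 1
      rw [List.flatMap_cons, flatMap_put1_fixed hq3]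
      simp [put1, inOrder]
  · rcases V with _ | ⟨q', V⟩
    · simp only [List.append_nil] at h' hE ⊢
      have hq1 : q ∈ H' := (h'.mem q (by simp)).1
      have hq2 : q.name ∉ N' := (h'.mem q (by simp)).2
      have hq3 : q ∉ U := (List.nodup_cons.1 hE.nodup).1
      have h1 := (SEq.insPair1 (C := {c, d}) (hG.count hq1) (!o) s b true (by simp) (by simp) hcd
        hcH hdH).toREq
      have h2 := h'.grow hg (h7 q b true (!o) hq2) h1
      have h3 : (q :: U).flatMap (put1 q (inOrder b ⟨c, !o, s⟩ ⟨d, !o, !s⟩ ++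
          inOrder true ⟨c, !!o, s⟩ ⟨d, !!o, !s⟩ ++ [q])) =
          inOrder b ⟨c, !o, s⟩ ⟨d, !o, !s⟩ ++ ([⟨c, o, s⟩, ⟨d, o, !s⟩] ++ q :: U) := by
        rw [List.flatMap_cons, flatMap_put1_fixed hq3]
        simp [put1, inOrder]
      rw [h3] at h2
      have h4 := h2.step0 (Finset.Subset.refl N') (SEq.rotate (C := N')
        (inOrder b ⟨c, !o, s⟩ ⟨d, !o, !s⟩) ([⟨c, o, s⟩, ⟨d, o, !s⟩] ++ q :: U)) ?_ ?_
      · exact ⟨_, N', S', h4⟩
      · intro p hp
        right
        rw [List.mem_append] at hp ⊢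
        exact hp.symm
      · intro p hp
        rw [List.mem_append] at hp
        have : p ∈ inOrder b ⟨c, !o, s⟩ ⟨d, !o, !s⟩ ++ ([⟨c, o, s⟩, ⟨d, o, !s⟩] ++ q :: U) := by
          rw [List.mem_append]
          exact hp.symm
        exact ⟨this, (h2.mem p this).2⟩
    · have hq1 : q ∈ H' := (h'.mem q (by simp)).1
      have hq2 : q.name ∉ N' := (h'.mem q (by simp)).2
      have hq1' : q' ∈ H' := (h'.mem q' (by simp)).1
      have hq2' : q'.name ∉ N' := (h'.mem q' (by simp)).2
      have hnd := hE.nodup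
      rw [List.nodup_append, List.nodup_cons, List.nodup_cons] at hnd
      have hqq : q ≠ q' := hnd.2.2 q (by simp) q' (by simp)
      have hqV : q ∉ V := fun hh => (hnd.2.2 q (by simp) q (by simp [hh])) rfl
      have hqU' : q' ∉ U := fun hh => (hnd.2.2 q' (by simp [hh]) q' (by simp)) rfl
      have h1 := (SEq.insPair (C := {c, d}) hqq (hG.count hq1) (hG.count hq1') o s true b
        (by simp) (by simp) hcd hcH hdH (a₁ := []) (a₂ := [q]) (a₁' := []) (a₂' := [q']) rfl
        rfl).toREq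
      have hadm : Adm N' (put2 q q' ([] ++ inOrder true ⟨c, o, s⟩ ⟨d, o, !s⟩ ++ [q])
          ([] ++ inOrder b ⟨c, !o, s⟩ ⟨d, !o, !s⟩ ++ [q'])) := by
        refine adm_put2 hq2 hq2' ?_ ?_
        · intro p hp
          simp only [List.nil_append, List.mem_append, List.mem_cons, List.not_mem_nil,
            or_false] at hp
          rcases hp with hp | rfl
          · rcases inOrder_names hp with rfl | rfl
            · exact hcN
            · exact hdN
          · exact hq2
        · intro p hp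
          simp only [List.nil_append, List.mem_append, List.mem_cons, List.not_mem_nil,
            or_false] at hp
          rcases hp with hp | rfl
          · rcases inOrder_names hp with rfl | rfl
            · exact hcN
            · exact hdN
          · exact hq2'
      have h2 := h'.grow hg hadm h1
      refine ⟨H'.flatMap (put2 q q' ([] ++ inOrder true ⟨c, o, s⟩ ⟨d, o, !s⟩ ++ [q])
          ([] ++ inOrder b ⟨c, !o, s⟩ ⟨d, !o, !s⟩ ++ [q'])), N', S', ?_⟩
      convert h2 using 1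
      rw [List.flatMap_append, List.flatMap_cons, List.flatMap_cons,
        flatMap_put2_fixed hnd.1.1 hqU', flatMap_put2_fixed hqV hnd.2.1.1]
      simp [put2, inOrder, hqq.symm]

end

end Pool.Agent.R811.VK
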