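import Pool.Agent.R811.VK.Grow

set_option autoImplicit false
set_option linter.unusedSimpArgs false

namespace Pool.Agent.R811.VK

open Relation

/-- The letter `q` if `b` holds. -/
def pick (b : Bool) (q : Pass) : Word := if b then [q] else []

theorem pick_append (b : Bool) (q : Pass) : pick b q ++ pick (!b) q = [q] := by
  cases b <;> rfl

theorem pick_append' (b : Bool) (q : Pass) : pick (!b) q ++ pick b q = [q] := by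
  cases b <;> rfl

/-- The data of a third move, together with the names of the auxiliary crossings. -/
structure Tri where
  x : ℕ
  y : ℕ
  z : ℕ
  n₁ : ℕ
  n₂ : ℕ
  b₁ : ℕ
  b₂ : ℕ
  a : Bool
  b : Bool
  c : Bool
  t : Bool
  m : Bool
  l : Bool
  hn : [x, y, z, n₁, n₂, b₁, b₂].Nodup

namespace Tri

variable (D : Tri)

theorem ne : (D.x ≠ D.y ∧ D.x ≠ D.z ∧ D.x ≠ D.n₁ ∧ D.x ≠ D.n₂ ∧ D.x ≠ D.b₁ ∧ D.x ≠ D.b₂) ∧
    (D.y ≠ D.x ∧ D.y ≠ D.z ∧ D.y ≠ D.n₁ ∧ D.y ≠ D.n₂ ∧ D.y ≠ D.b₁ ∧ D.y ≠ D.b₂) ∧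
    (D.z ≠ D.x ∧ D.z ≠ D.y ∧ D.z ≠ D.n₁ ∧ D.z ≠ D.n₂ ∧ D.z ≠ D.b₁ ∧ D.z ≠ D.b₂) ∧
    (D.n₁ ≠ D.x ∧ D.n₁ ≠ D.y ∧ D.n₁ ≠ D.z ∧ D.n₁ ≠ D.n₂ ∧ D.n₁ ≠ D.b₁ ∧ D.n₁ ≠ D.b₂) ∧
    (D.n₂ ≠ D.x ∧ D.n₂ ≠ D.y ∧ D.n₂ ≠ D.z ∧ D.n₂ ≠ D.n₁ ∧ D.n₂ ≠ D.b₁ ∧ D.n₂ ≠ D.b₂) ∧
    (D.b₁ ≠ D.x ∧ D.b₁ ≠ D.y ∧ D.b₁ ≠ D.z ∧ D.b₁ ≠ D.n₁ ∧ D.b₁ ≠ D.n₂ ∧ D.b₁ ≠ D.b₂) ∧
    (D.b₂ ≠ D.x ∧ D.b₂ ≠ D.y ∧ D.b₂ ≠ D.z ∧ D.b₂ ≠ D.n₁ ∧ D.b₂ ≠ D.n₂ ∧ D.b₂ ≠ D.b₁) := by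
  have h := D.hn
  simp only [List.nodup_cons, List.mem_cons, List.not_mem_nil, or_false, not_or,
    not_false_eq_true, List.nodup_nil, and_true] at h
  obtain ⟨⟨h1, h2, h3, h4, h5, h6⟩, ⟨h7, h8, h9, h10, h11⟩, ⟨h12, h13, h14, h15⟩,
    ⟨h16, h17, h18⟩, ⟨h19, h20⟩, h21⟩ := h
  refine ⟨⟨h1, h2, h3, h4, h5, h6⟩, ⟨Ne.symm h1, h7, h8, h9, h10, h11⟩,
    ⟨Ne.symm h2, Ne.symm h7, h12, h13, h14, h15⟩,
    ⟨Ne.symm h3, Ne.symm h8, Ne.symm h12, h16, h17, h18⟩,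
    ⟨Ne.symm h4, Ne.symm h9, Ne.symm h13, Ne.symm h16, h19, h20⟩,
    ⟨Ne.symm h5, Ne.symm h10, Ne.symm h14, Ne.symm h17, Ne.symm h19, h21⟩,
    ⟨Ne.symm h6, Ne.symm h11, Ne.symm h15, Ne.symm h18, Ne.symm h20, Ne.symm h21⟩⟩

def X : Pass := ⟨D.x, true, D.a⟩
def X' : Pass := ⟨D.x, false, D.a⟩
def Y : Pass := ⟨D.y, true, D.b⟩
def Y' : Pass := ⟨D.y, false, D.b⟩
def Z : Pass := ⟨D.z, true, D.c⟩
def Z' : Pass := ⟨D.z, false, D.c⟩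
def nX : Pass := ⟨D.n₁, true, D.a⟩
def nX' : Pass := ⟨D.n₁, false, D.a⟩
def nY : Pass := ⟨D.n₂, true, D.b⟩
def nY' : Pass := ⟨D.n₂, false, D.b⟩
def bX : Pass := ⟨D.b₁, true, !D.a⟩
def bX' : Pass := ⟨D.b₁, false, !D.a⟩
def bY : Pass := ⟨D.b₂, true, !D.b⟩
def bY' : Pass := ⟨D.b₂, false, !D.b⟩
def T2 : Pass := if D.t then D.Y else D.X

/-- The inserted words before the third move. -/
def A₁ : Word := if D.t then [D.bX, D.nX, D.nY, D.bY, D.Y] else [D.bY, D.nY, D.nX, D.bX, D.X]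
def B₁ : Word := if D.m then [D.bX', D.nX', D.Z] else [D.Z, D.nX', D.bX']
def C₁ : Word := if D.l then [D.bY', D.nY', D.Z'] else [D.Z', D.nY', D.bY']
/-- The inserted words after the third move. -/
def A₂ : Word := if D.t then [D.bX, D.nY, D.nX, D.bY, D.Y] else [D.bY, D.nX, D.nY, D.bX, D.X]
def B₂ : Word := if D.m then [D.bX', D.Z, D.nX'] else [D.nX', D.Z, D.bX']
def C₂ : Word := if D.l then [D.bY', D.Z', D.nY'] else [D.nY', D.Z', D.bY']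
/-- The inserted words with a hole for the third move. -/
def A₀ : Word := if D.t then [D.bX, D.nX, D.bY, D.Y] else [D.bY, D.nX, D.bX, D.X]
def B₀ : Word := if D.m then [D.bX', D.Z] else [D.Z, D.bX']
def C₀ : Word := if D.l then [D.bY', D.Z'] else [D.Z', D.bY']

def σ₁ : Pass → Word := put3 D.T2 D.Z D.Z' D.A₁ D.B₁ D.C₁
def σ₂ : Pass → Word := put3 D.T2 D.Z D.Z' D.A₂ D.B₂ D.C₂
def σ₀ : Pass → Word := put3 D.T2 D.Z D.Z' D.A₀ D.B₀ D.C₀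

def p1 : Pass → Word := put2 D.T2 D.Z ([] ++ inOrder (!D.t) D.nX D.bX ++ [D.T2])
  (pick (!D.m) D.Z ++ inOrder (!D.m) D.nX' D.bX' ++ pick D.m D.Z)
def p2 : Pass → Word := put2 D.nX D.Z' (pick D.t D.nX ++ inOrder D.t D.nY D.bY ++ pick (!D.t) D.nX)
  (pick (!D.l) D.Z' ++ inOrder (!D.l) D.nY' D.bY' ++ pick D.l D.Z')
def q1 : Pass → Word := put2 D.nY D.Z (pick (!D.t) D.nY ++ inOrder D.t D.X D.bX ++ pick D.t D.nY)
  (pick (!D.m) D.Z ++ inOrder D.m D.X' D.bX' ++ pick D.m D.Z)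
def q2 : Pass → Word := put2 D.nX D.Z' (pick D.t D.nX ++ inOrder (!D.t) D.Y D.bY ++ pick (!D.t) D.nX)
  (pick (!D.l) D.Z' ++ inOrder D.l D.Y' D.bY' ++ pick D.l D.Z')

/-- The words of the three strands before and after the third move. -/
def hole₁ : Pass → Word := put3 D.nX D.Z D.Z' (inOrder D.t D.nX D.nY) (inOrder D.m D.nX' D.Z)
  (inOrder D.l D.nY' D.Z')
def hole₂ : Pass → Word := put3 D.nX D.Z D.Z' (inOrder (!D.t) D.nX D.nY)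
  (inOrder (!D.m) D.nX' D.Z) (inOrder (!D.l) D.nY' D.Z')

theorem eq_T2 : (D.p1 D.T2).flatMap D.p2 = D.σ₁ D.T2 ∧
    (D.σ₀ D.T2).flatMap D.hole₁ = D.σ₁ D.T2 ∧ (D.σ₀ D.T2).flatMap D.hole₂ = D.σ₂ D.T2 := by
  obtain ⟨⟨e1, e2, e3, e4, e5, e6⟩, ⟨f1, f2, f3, f4, f5, f6⟩, ⟨g1, g2, g3, g4, g5, g6⟩,
    ⟨h1, h2, h3, h4, h5, h6⟩, ⟨i1, i2, i3, i4, i5, i6⟩, ⟨j1, j2, j3, j4, j5, j6⟩,
    ⟨k1, k2, k3, k4, k5, k6⟩⟩ := D.ne
  cases ht : D.t <;>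
  simp [p1, p2, σ₁, σ₂, σ₀, hole₁, hole₂, put2, put3, inOrder, pick, ht, A₁, A₂, A₀, X, Y, Z, Z',
    nX, nY, bX, bY, T2, *]

theorem eq_Z : (D.p1 D.Z).flatMap D.p2 = D.σ₁ D.Z ∧
    (D.σ₀ D.Z).flatMap D.hole₁ = D.σ₁ D.Z ∧ (D.σ₀ D.Z).flatMap D.hole₂ = D.σ₂ D.Z := by
  obtain ⟨⟨e1, e2, e3, e4, e5, e6⟩, ⟨f1, f2, f3, f4, f5, f6⟩, ⟨g1, g2, g3, g4, g5, g6⟩,
    ⟨h1, h2, h3, h4, h5, h6⟩, ⟨i1, i2, i3, i4, i5, i6⟩, ⟨j1, j2, j3, j4, j5, j6⟩,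
    ⟨k1, k2, k3, k4, k5, k6⟩⟩ := D.ne
  cases ht : D.t <;> cases hm : D.m <;>
  simp [p1, p2, σ₁, σ₂, σ₀, hole₁, hole₂, put2, put3, inOrder, pick, ht, hm, B₁, B₂, B₀, X, Y, Z,
    Z', nX, nX', bX', T2, *]

theorem eq_Z' : (D.p1 D.Z').flatMap D.p2 = D.σ₁ D.Z' ∧
    (D.σ₀ D.Z').flatMap D.hole₁ = D.σ₁ D.Z' ∧ (D.σ₀ D.Z').flatMap D.hole₂ = D.σ₂ D.Z' := by
  obtain ⟨⟨e1, e2, e3, e4, e5, e6⟩, ⟨f1, f2, f3, f4, f5, f6⟩, ⟨g1, g2, g3, g4, g5, g6⟩,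
    ⟨h1, h2, h3, h4, h5, h6⟩, ⟨i1, i2, i3, i4, i5, i6⟩, ⟨j1, j2, j3, j4, j5, j6⟩,
    ⟨k1, k2, k3, k4, k5, k6⟩⟩ := D.ne
  cases ht : D.t <;> cases hl : D.l <;>
  simp [p1, p2, σ₁, σ₂, σ₀, hole₁, hole₂, put2, put3, inOrder, pick, ht, hl, C₁, C₂, C₀, X, Y, Z,
    Z', nX, nY', bY', T2, *]

theorem eq_other {p : Pass} (h1 : p ≠ D.T2) (h2 : p ≠ D.Z) (h3 : p ≠ D.Z') (h4 : p.name ≠ D.n₁) :
    (D.p1 p).flatMap D.p2 = [p] ∧ D.σ₁ p = [p] ∧ D.σ₂ p = [p] ∧ D.σ₀ p = [p] ∧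
      D.hole₁ p = [p] ∧ D.hole₂ p = [p] := by
  have h5 : p ≠ D.nX := by
    rintro rfl
    exact h4 rfl
  simp [p1, p2, σ₁, σ₂, σ₀, hole₁, hole₂, put2, put3, h1, h2, h3, h5]

theorem eq₁ {w : Word} (hw : Fresh D.n₁ w) : (w.flatMap D.p1).flatMap D.p2 = w.flatMap D.σ₁ := by
  rw [List.flatMap_assoc]
  apply List.flatMap_congr
  intro p hp
  by_cases h1 : p = D.T2
  · rw [h1, D.eq_T2.1]
  by_cases h2 : p = D.Z
  · rw [h2, D.eq_Z.1]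
  by_cases h3 : p = D.Z'
  · rw [h3, D.eq_Z'.1]
  obtain ⟨e1, e2, -⟩ := D.eq_other h1 h2 h3 (hw p hp)
  rw [e1, e2]

theorem eq₂ {w : Word} (hw : Fresh D.n₁ w) :
    (w.flatMap D.σ₀).flatMap D.hole₁ = w.flatMap D.σ₁ := by
  rw [List.flatMap_assoc]
  apply List.flatMap_congr
  intro p hp
  by_cases h1 : p = D.T2
  · rw [h1, D.eq_T2.2.1]
  by_cases h2 : p = D.Z
  · rw [h2, D.eq_Z.2.1]
  by_cases h3 : p = D.Z'
  · rw [h3, D.eq_Z'.2.1]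
  obtain ⟨e1, e2, e3, e4, e5, e6⟩ := D.eq_other h1 h2 h3 (hw p hp)
  rw [e4, e2]
  simp [e5]

theorem eq₃ {w : Word} (hw : Fresh D.n₁ w) :
    (w.flatMap D.σ₀).flatMap D.hole₂ = w.flatMap D.σ₂ := by
  rw [List.flatMap_assoc]
  apply List.flatMap_congr
  intro p hp
  by_cases h1 : p = D.T2
  · rw [h1, D.eq_T2.2.2]
  by_cases h2 : p = D.Z
  · rw [h2, D.eq_Z.2.2]
  by_cases h3 : p = D.Z'
  · rw [h3, D.eq_Z'.2.2]
  obtain ⟨e1, e2, e3, e4, e5, e6⟩ := D.eq_other h1 h2 h3 (hw p hp)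
  rw [e4, e3]
  simp [e6]

theorem ne' : D.T2 ≠ D.Z ∧ D.T2 ≠ D.Z' ∧ D.Z ≠ D.Z' ∧ D.nX ≠ D.Z ∧ D.nX ≠ D.Z' ∧ D.nX ≠ D.T2 ∧
    D.nY ≠ D.Z ∧ D.nY ≠ D.Z' ∧ D.nX ≠ D.nY := by
  obtain ⟨⟨e1, e2, e3, e4, e5, e6⟩, ⟨f1, f2, f3, f4, f5, f6⟩, ⟨g1, g2, g3, g4, g5, g6⟩,
    ⟨h1, h2, h3, h4, h5, h6⟩, ⟨i1, i2, i3, i4, i5, i6⟩, ⟨j1, j2, j3, j4, j5, j6⟩,
    ⟨k1, k2, k3, k4, k5, k6⟩⟩ := D.ne
  cases ht : D.t <;> simp [X, Y, Z, Z', nX, nY, T2, *]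

theorem mem_pick {b : Bool} {p q : Pass} (h : p ∈ pick b q) : p = q := by
  cases b <;> simp [pick] at h
  exact h

theorem mem_p1 {p q : Pass} (h : q ∈ D.p1 p) :
    q = D.nX ∨ q = D.bX ∨ q = D.nX' ∨ q = D.bX' ∨ q = p := by
  unfold p1 put2 at h
  split_ifs at h with h1 h2
  · simp only [List.nil_append, List.mem_append, List.mem_singleton] at h
    rcases h with h | h
    · rcases inOrder_names h with h | h <;> tauto
    · rw [h1]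
      tauto
  · simp only [List.mem_append] at h
    rcases h with (h | h) | h
    · rw [h2, mem_pick h]
      tauto
    · rcases inOrder_names h with h | h <;> tauto
    · rw [h2, mem_pick h]
      tauto
  · rw [List.mem_singleton] at h
    tauto

theorem mem_q1 {p q : Pass} (h : q ∈ D.q1 p) :
    q = D.X ∨ q = D.bX ∨ q = D.X' ∨ q = D.bX' ∨ q = p := by
  unfold q1 put2 at h
  split_ifs at h with h1 h2
  · simp only [List.mem_append] at h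
    rcases h with (h | h) | h
    · rw [h1, mem_pick h]
      tauto
    · rcases inOrder_names h with h | h <;> tauto
    · rw [h1, mem_pick h]
      tauto
  · simp only [List.mem_append] at h
    rcases h with (h | h) | h
    · rw [h2, mem_pick h]
      tauto
    · rcases inOrder_names h with h | h <;> tauto
    · rw [h2, mem_pick h]
      tauto
  · rw [List.mem_singleton] at h
    tauto

theorem mem_σ₀ {p q : Pass} (h : q ∈ D.σ₀ p) :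
    q = D.nX ∨ q = D.bX ∨ q = D.bX' ∨ q = D.bY ∨ q = D.bY' ∨ q = D.X ∨ q = D.Y ∨ q = D.Z ∨
      q = D.Z' ∨ (q = p ∧ p ≠ D.T2 ∧ p ≠ D.Z ∧ p ≠ D.Z') := by
  unfold σ₀ put3 at h
  split_ifs at h with h1 h2 h3
  · unfold A₀ at h
    split_ifs at h <;> simp only [List.mem_cons, List.not_mem_nil, or_false] at h <;> tauto
  · unfold B₀ at h
    split_ifs at h <;> simp only [List.mem_cons, List.not_mem_nil, or_false] at h <;> tauto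
  · unfold C₀ at h
    split_ifs at h <;> simp only [List.mem_cons, List.not_mem_nil, or_false] at h <;> tauto
  · rw [List.mem_singleton] at h
    tauto

theorem count_σ₀ {w : Word} (hw1 : Fresh D.n₁ w) :
    (w.flatMap D.σ₀).count D.nX = w.count D.T2 ∧ (w.flatMap D.σ₀).count D.Z = w.count D.Z ∧
      (w.flatMap D.σ₀).count D.Z' = w.count D.Z' := by
  obtain ⟨⟨e1, e2, e3, e4, e5, e6⟩, ⟨f1, f2, f3, f4, f5, f6⟩, ⟨g1, g2, g3, g4, g5, g6⟩,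
    ⟨h1, h2, h3, h4, h5, h6⟩, ⟨i1, i2, i3, i4, i5, i6⟩, ⟨j1, j2, j3, j4, j5, j6⟩,
    ⟨k1, k2, k3, k4, k5, k6⟩⟩ := D.ne
  obtain ⟨n1, n2, n3, n4, n5, n6, -⟩ := D.ne'
  refine ⟨?_, ?_, ?_⟩
  · apply count_flatMap_eq
    intro p hp
    have hp1 : p ≠ D.nX := by
      rintro rfl
      exact hw1 _ hp rfl
    unfold σ₀ put3
    by_cases q1 : p = D.T2
    · rw [if_pos q1, if_pos q1]
      cases ht : D.t <;>
        simp [A₀, ht, nX, bX, bY, X, Y, *, List.count_cons]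
    · rw [if_neg q1, if_neg q1]
      by_cases q2 : p = D.Z
      · rw [if_pos q2]
        cases hm : D.m <;>
          simp [B₀, hm, nX, bX', Z, *, List.count_cons]
      · rw [if_neg q2]
        by_cases q3 : p = D.Z'
        · rw [if_pos q3]
          cases hl : D.l <;>
            simp [C₀, hl, nX, bY', Z', *, List.count_cons]
        · rw [if_neg q3]
          simp [List.count_cons, hp1]
  · apply count_flatMap_eq
    intro p hp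
    unfold σ₀ put3
    by_cases q1 : p = D.T2
    · rw [if_pos q1]
      have : D.T2 ≠ D.Z := n1
      rw [q1, if_neg this]
      cases ht : D.t <;>
        simp [A₀, ht, nX, bX, bY, X, Y, Z, *, List.count_cons]
    · rw [if_neg q1]
      by_cases q2 : p = D.Z
      · rw [if_pos q2, if_pos q2]
        cases hm : D.m <;>
          simp [B₀, hm, nX, bX', Z, *, List.count_cons]
      · rw [if_neg q2, if_neg q2]
        by_cases q3 : p = D.Z'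
        · rw [if_pos q3]
          cases hl : D.l <;>
            simp [C₀, hl, nX, bY', Z', Z, *, List.count_cons]
        · rw [if_neg q3]
          simp [List.count_cons, q2]
  · apply count_flatMap_eq
    intro p hp
    unfold σ₀ put3
    by_cases q1 : p = D.T2
    · rw [if_pos q1]
      rw [q1, if_neg n2]
      cases ht : D.t <;>
        simp [A₀, ht, nX, bX, bY, X, Y, Z', *, List.count_cons]
    · rw [if_neg q1]
      by_cases q2 : p = D.Z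
      · rw [if_pos q2, q2, if_neg n3]
        cases hm : D.m <;>
          simp [B₀, hm, nX, bX', Z, Z', *, List.count_cons]
      · rw [if_neg q2]
        by_cases q3 : p = D.Z'
        · rw [if_pos q3, if_pos q3]
          cases hl : D.l <;>
            simp [C₀, hl, nX, bY', Z', Z, *, List.count_cons]
        · rw [if_neg q3, if_neg q3]
          simp [List.count_cons, q3]

theorem reqH {w : Word} (hw : IsGauss w) (h1 : D.T2 ∈ w) (h2 : D.Z ∈ w) (h3 : D.Z' ∈ w)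
    (f1 : Fresh D.n₁ w) (f2 : Fresh D.n₂ w) (f3 : Fresh D.b₁ w) (f4 : Fresh D.b₂ w)
    (hh₁ : D.t = D.m ↔ D.b = D.c) (hh₂ : D.l = D.m ↔ D.a = D.b) : REq w (w.flatMap D.σ₂) := by
  obtain ⟨⟨e1, e2, e3, e4, e5, e6⟩, ⟨f1', f2', f3', f4', f5', f6'⟩, ⟨g1, g2, g3, g4, g5, g6⟩,
    ⟨h1', h2', h3', h4', h5', h6'⟩, ⟨i1, i2, i3, i4, i5, i6⟩, ⟨j1, j2, j3, j4, j5, j6⟩,
    ⟨k1, k2, k3, k4, k5, k6⟩⟩ := D.ne
  obtain ⟨n1, n2, n3, n4, n5, n6, -⟩ := D.ne'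
  have s1 : REq w (w.flatMap D.p1) :=
    (SEq.insPair (C := {D.n₁, D.b₁}) n1 (hw.count h1) (hw.count h2) true D.a (!D.t) (!D.m)
      (by simp) (by simp) h5' f1 f3 (a₁ := []) (a₂ := [D.T2]) (a₁' := pick (!D.m) D.Z)
      (a₂' := pick D.m D.Z) rfl (pick_append' _ _)).toREq
  have hw1 : IsGauss (w.flatMap D.p1) := (gauss_req s1).1 hw
  have m1 : D.nX ∈ w.flatMap D.p1 := by
    rw [List.mem_flatMap]
    refine ⟨D.T2, h1, ?_⟩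
    unfold p1 put2
    rw [if_pos rfl]
    cases D.t <;> simp [inOrder]
  have m2 : D.Z' ∈ w.flatMap D.p1 := by
    rw [List.mem_flatMap]
    refine ⟨D.Z', h3, ?_⟩
    unfold p1 put2
    rw [if_neg n2.symm, if_neg n3.symm]
    simp
  have c1 : Fresh D.n₂ (w.flatMap D.p1) := by
    intro q hq
    rw [List.mem_flatMap] at hq
    obtain ⟨p, hp, hq⟩ := hq
    rcases D.mem_p1 hq with rfl | rfl | rfl | rfl | rfl
    · exact h4'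
    · exact j5
    · exact h4'
    · exact j5
    · exact f2 _ hp
  have c2 : Fresh D.b₂ (w.flatMap D.p1) := by
    intro q hq
    rw [List.mem_flatMap] at hq
    obtain ⟨p, hp, hq⟩ := hq
    rcases D.mem_p1 hq with rfl | rfl | rfl | rfl | rfl
    · exact h6'
    · exact j6
    · exact h6'
    · exact j6
    · exact f4 _ hp
  have s2 : REq (w.flatMap D.p1) ((w.flatMap D.p1).flatMap D.p2) :=
    (SEq.insPair (C := {D.n₂, D.b₂}) n5 (hw1.count m1) (hw1.count m2) true D.b D.t (!D.l)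
      (by simp) (by simp) i6 c1 c2 (a₁ := pick D.t D.nX) (a₂ := pick (!D.t) D.nX)
      (a₁' := pick (!D.l) D.Z') (a₂' := pick D.l D.Z') (pick_append _ _)
      (pick_append' _ _)).toREq
  rw [D.eq₁ f1, ← D.eq₂ f1] at s2
  have hcount := D.count_σ₀ f1
  have s3 : REq ((w.flatMap D.σ₀).flatMap D.hole₁) ((w.flatMap D.σ₀).flatMap D.hole₂) := by
    refine REq.hole3 n4 n5 n3 (by rw [hcount.1, hw.count h1]) (by rw [hcount.2.1, hw.count h2])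
      (by rw [hcount.2.2, hw.count h3]) (x := D.n₁) (y := D.n₂) (z := D.z) h4' h3' i3 ?_ D.a D.b
      D.c D.t D.m D.l hh₁ hh₂
    intro q hq r1 r2 r3
    rw [List.mem_flatMap] at hq
    obtain ⟨p, hp, hq⟩ := hq
    rcases D.mem_σ₀ hq with rfl | rfl | rfl | rfl | rfl | rfl | rfl | rfl | rfl | ⟨rfl, r4, r5, r6⟩
    · exact absurd rfl r1
    · exact ⟨j4, j5, j3⟩
    · exact ⟨j4, j5, j3⟩
    · exact ⟨k4, k5, k3⟩
    · exact ⟨k4, k5, k3⟩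
    · exact ⟨e3, e4, e2⟩
    · exact ⟨f3', f4', f2'⟩
    · exact absurd rfl r2
    · exact absurd rfl r3
    · refine ⟨f1 _ hp, f2 _ hp, fun r7 => ?_⟩
      rcases hu : q.upper with _ | _
      · exact r6 (hw.eq_of hp h3 r7 hu)
      · exact r5 (hw.eq_of hp h2 r7 hu)
  rw [D.eq₃ f1] at s3
  exact (s1.trans s2).trans s3

end Tri

end Pool.Agent.R811.VK
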