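import Pool.Agent.R811.VK.Third

set_option autoImplicit false
set_option linter.unusedSimpArgs false

namespace Pool.Agent.R811.VK

open Relation

theorem SMove.mem_iff {C : Finset ℕ} {w w' : Word} (h : SMove C w w') {p : Pass}
    (hp : p.name ∉ C) : p ∈ w ↔ p ∈ w' := by
  cases h with
  | rotate U V =>
    simp only [List.mem_append]
    tauto
  | first c o s w hC hc =>
    simp only [List.mem_append, List.mem_cons, List.not_mem_nil, or_false]
    constructor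
    · tauto
    · rintro ((rfl | rfl) | h)
      · exact absurd hC hp
      · exact absurd hC hp
      · exact h
  | second c d o s b U V h1 h2 hcd hc hd =>
    simp only [List.mem_append, List.mem_cons, List.not_mem_nil, or_false]
    constructor
    · tauto
    · rintro ((((rfl | rfl) | h) | h) | h)
      · exact absurd h1 hp
      · exact absurd h2 hp
      · exact Or.inl h
      · rcases inOrder_names h with rfl | rfl
        · exact absurd h1 hp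
        · exact absurd h2 hp
      · exact Or.inr h

theorem SEq.mem_iff {C : Finset ℕ} {w w' : Word} (h : SEq C w w') {p : Pass}
    (hp : p.name ∉ C) : p ∈ w ↔ p ∈ w' := by
  induction h with
  | rel _ _ h => exact h.mem_iff hp
  | refl _ => exact Iff.rfl
  | symm _ _ _ ih => exact ih.symm
  | trans _ _ _ _ _ ih1 ih2 => exact ih1.trans ih2

/-- The words of the three strands, separated by the words `U`, `V`, `W`. -/
def asm (j : Bool) (T U M V L W : Word) : Word :=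
  if j then T ++ U ++ M ++ V ++ L ++ W else T ++ U ++ L ++ V ++ M ++ W

theorem asm_flatMap (j : Bool) (T U M V L W : Word) (f : Pass → Word) :
    (asm j T U M V L W).flatMap f = asm j (T.flatMap f) (U.flatMap f) (M.flatMap f) (V.flatMap f)
      (L.flatMap f) (W.flatMap f) := by
  cases j <;> simp [asm, List.flatMap_append]

theorem asm_map (j : Bool) (T U M V L W : Word) (f : Pass → Pass) :
    (asm j T U M V L W).map f = asm j (T.map f) (U.map f) (M.map f) (V.map f)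
      (L.map f) (W.map f) := by
  cases j <;> simp [asm]

theorem mem_asm {j : Bool} {T U M V L W : Word} {p : Pass} :
    p ∈ asm j T U M V L W ↔ (p ∈ T ∨ p ∈ M ∨ p ∈ L) ∨ (p ∈ U ∨ p ∈ V ∨ p ∈ W) := by
  cases j <;> simp [asm] <;> tauto

theorem Move.asm {j : Bool} {x y z : ℕ} {a b c t m l : Bool} {U V W : Word} (hxy : x ≠ y)
    (hxz : x ≠ z) (hyz : y ≠ z)
    (hf : ∀ p, (p ∈ U ∨ p ∈ V ∨ p ∈ W) → p.name ≠ x ∧ p.name ≠ y ∧ p.name ≠ z)
    (h₁ : t = m ↔ b = c) (h₂ : l = m ↔ a = b) :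
    Move
      (asm j (inOrder t ⟨x, true, a⟩ ⟨y, true, b⟩) U (inOrder m ⟨x, false, a⟩ ⟨z, true, c⟩) V
        (inOrder l ⟨y, false, b⟩ ⟨z, false, c⟩) W)
      (asm j (inOrder (!t) ⟨x, true, a⟩ ⟨y, true, b⟩) U
        (inOrder (!m) ⟨x, false, a⟩ ⟨z, true, c⟩) V
        (inOrder (!l) ⟨y, false, b⟩ ⟨z, false, c⟩) W) := by
  have hf' : ∀ p ∈ U ++ V ++ W, p.name ≠ x ∧ p.name ≠ y ∧ p.name ≠ z := by
    intro p hp
    apply hf
    simp only [List.mem_append] at hp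
    tauto
  cases j
  · exact Move.third' x y z a b c t m l U V W hxy hxz hyz (fun p hp => (hf' p hp).1)
      (fun p hp => (hf' p hp).2.1) (fun p hp => (hf' p hp).2.2) h₁ h₂
  · exact Move.third x y z a b c t m l U V W hxy hxz hyz (fun p hp => (hf' p hp).1)
      (fun p hp => (hf' p hp).2.1) (fun p hp => (hf' p hp).2.2) h₁ h₂

namespace Tri

variable (D : Tri)

theorem eq_T : (((inOrder (!D.t) D.nX D.nY).flatMap D.q1).flatMap D.q2 =
    (inOrder D.t D.X D.Y).flatMap D.σ₂) := by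
  obtain ⟨⟨e1, e2, e3, e4, e5, e6⟩, ⟨f1, f2, f3, f4, f5, f6⟩, ⟨g1, g2, g3, g4, g5, g6⟩,
    ⟨h1, h2, h3, h4, h5, h6⟩, ⟨i1, i2, i3, i4, i5, i6⟩, ⟨j1, j2, j3, j4, j5, j6⟩,
    ⟨k1, k2, k3, k4, k5, k6⟩⟩ := D.ne
  cases ht : D.t <;>
  simp [q1, q2, σ₂, put2, put3, inOrder, pick, ht, A₂, X, Y, Z, Z', nX, nY, bX, bY, T2, *]

theorem eq_M : (((inOrder (!D.m) D.nX' D.Z).flatMap D.q1).flatMap D.q2 =
    (inOrder D.m D.X' D.Z).flatMap D.σ₂) := by
  obtain ⟨⟨e1, e2, e3, e4, e5, e6⟩, ⟨f1, f2, f3, f4, f5, f6⟩, ⟨g1, g2, g3, g4, g5, g6⟩,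
    ⟨h1, h2, h3, h4, h5, h6⟩, ⟨i1, i2, i3, i4, i5, i6⟩, ⟨j1, j2, j3, j4, j5, j6⟩,
    ⟨k1, k2, k3, k4, k5, k6⟩⟩ := D.ne
  cases ht : D.t <;> cases hm : D.m <;>
  simp [q1, q2, σ₂, put2, put3, inOrder, pick, ht, hm, B₂, X, X', Y, Z, Z', nX, nX', nY, bX', T2,
    *]

theorem eq_L : (((inOrder (!D.l) D.nY' D.Z').flatMap D.q1).flatMap D.q2 =
    (inOrder D.l D.Y' D.Z').flatMap D.σ₂) := by
  obtain ⟨⟨e1, e2, e3, e4, e5, e6⟩, ⟨f1, f2, f3, f4, f5, f6⟩, ⟨g1, g2, g3, g4, g5, g6⟩,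
    ⟨h1, h2, h3, h4, h5, h6⟩, ⟨i1, i2, i3, i4, i5, i6⟩, ⟨j1, j2, j3, j4, j5, j6⟩,
    ⟨k1, k2, k3, k4, k5, k6⟩⟩ := D.ne
  cases ht : D.t <;> cases hl : D.l <;>
  simp [q1, q2, σ₂, put2, put3, inOrder, pick, ht, hl, C₂, X, Y, Y', Z, Z', nX, nY, nY', bY', T2,
    *]

theorem eq_U {U : Word} (hU : ∀ p ∈ U, p.name ≠ D.x ∧ p.name ≠ D.y ∧ p.name ≠ D.z ∧
    p.name ≠ D.n₁ ∧ p.name ≠ D.n₂) :
    U.flatMap D.q1 = U ∧ U.flatMap D.q2 = U ∧ U.flatMap D.σ₂ = U := by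
  have key : ∀ q : Pass, (q.name = D.x ∨ q.name = D.y ∨ q.name = D.z ∨ q.name = D.n₁ ∨
      q.name = D.n₂) → q ∉ U := by
    intro q hq h
    have := hU q h
    tauto
  refine ⟨?_, ?_, ?_⟩
  · exact flatMap_put2_fixed (key _ (by simp [nY])) (key _ (by simp [Z]))
  · exact flatMap_put2_fixed (key _ (by simp [nX])) (key _ (by simp [Z']))
  · refine flatMap_put3_fixed (key _ ?_) (key _ (by simp [Z])) (key _ (by simp [Z']))
    unfold T2
    split_ifs <;> simp [X, Y]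

theorem mem_E {j : Bool} {U V W : Word} :
    D.nX ∈ asm j (inOrder (!D.t) D.nX D.nY) U (inOrder (!D.m) D.nX' D.Z) V
      (inOrder (!D.l) D.nY' D.Z') W ∧
    D.nY ∈ asm j (inOrder (!D.t) D.nX D.nY) U (inOrder (!D.m) D.nX' D.Z) V
      (inOrder (!D.l) D.nY' D.Z') W ∧
    D.Z ∈ asm j (inOrder (!D.t) D.nX D.nY) U (inOrder (!D.m) D.nX' D.Z) V
      (inOrder (!D.l) D.nY' D.Z') W ∧
    D.Z' ∈ asm j (inOrder (!D.t) D.nX D.nY) U (inOrder (!D.m) D.nX' D.Z) V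
      (inOrder (!D.l) D.nY' D.Z') W := by
  refine ⟨?_, ?_, ?_, ?_⟩ <;> rw [mem_asm] <;> left
  · left
    cases D.t <;> simp [inOrder]
  · left
    cases D.t <;> simp [inOrder]
  · right; left
    cases D.m <;> simp [inOrder]
  · right; right
    cases D.l <;> simp [inOrder]

theorem seqE {j : Bool} {U V W : Word} (hf : ∀ p, (p ∈ U ∨ p ∈ V ∨ p ∈ W) →
      p.name ≠ D.x ∧ p.name ≠ D.y ∧ p.name ≠ D.z ∧
      p.name ≠ D.n₁ ∧ p.name ≠ D.n₂ ∧ p.name ≠ D.b₁ ∧ p.name ≠ D.b₂) {C : Finset ℕ}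
    (hx : D.x ∈ C) (hy : D.y ∈ C) (hb₁ : D.b₁ ∈ C) (hb₂ : D.b₂ ∈ C)
    (hG : IsGauss (asm j (inOrder (!D.t) D.nX D.nY) U (inOrder (!D.m) D.nX' D.Z) V
      (inOrder (!D.l) D.nY' D.Z') W)) :
    SEq C (asm j (inOrder (!D.t) D.nX D.nY) U (inOrder (!D.m) D.nX' D.Z) V
        (inOrder (!D.l) D.nY' D.Z') W)
      ((asm j (inOrder D.t D.X D.Y) U (inOrder D.m D.X' D.Z) V
        (inOrder D.l D.Y' D.Z') W).flatMap D.σ₂) := by
  obtain ⟨⟨e1, e2, e3, e4, e5, e6⟩, ⟨f1', f2', f3', f4', f5', f6'⟩, ⟨g1, g2, g3, g4, g5, g6⟩,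
    ⟨h1', h2', h3', h4', h5', h6'⟩, ⟨i1, i2, i3, i4, i5, i6⟩, ⟨j1, j2, j3, j4, j5, j6⟩,
    ⟨k1, k2, k3, k4, k5, k6⟩⟩ := D.ne
  obtain ⟨n1, n2, n3, n4, n5, n6, n7, n8, n9⟩ := D.ne'
  set E' := asm j (inOrder (!D.t) D.nX D.nY) U (inOrder (!D.m) D.nX' D.Z) V
      (inOrder (!D.l) D.nY' D.Z') W with hE'
  have hmem : D.nX ∈ E' ∧ D.nY ∈ E' ∧ D.Z ∈ E' ∧ D.Z' ∈ E' := D.mem_E
  have hnames : ∀ p ∈ E', p.name = D.n₁ ∨ p.name = D.n₂ ∨ p.name = D.z ∨
      (p.name ≠ D.x ∧ p.name ≠ D.y ∧ p.name ≠ D.b₁ ∧ p.name ≠ D.b₂) := by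
    intro p hp
    rw [hE', mem_asm] at hp
    rcases hp with (hp | hp | hp) | hp
    · rcases inOrder_names hp with rfl | rfl
      · exact Or.inl rfl
      · exact Or.inr (Or.inl rfl)
    · rcases inOrder_names hp with rfl | rfl
      · exact Or.inl rfl
      · exact Or.inr (Or.inr (Or.inl rfl))
    · rcases inOrder_names hp with rfl | rfl
      · exact Or.inr (Or.inl rfl)
      · exact Or.inr (Or.inr (Or.inl rfl))
    · have := hf p hp
      tauto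
  have F : ∀ k, (k = D.x ∨ k = D.y ∨ k = D.b₁ ∨ k = D.b₂) → Fresh k E' := by
    intro k hk p hp hpk
    rcases hnames p hp with h | h | h | h
    · rcases hk with hk | hk | hk | hk <;> rw [hk, h] at hpk <;> exact absurd hpk (by assumption)
    · rcases hk with hk | hk | hk | hk <;> rw [hk, h] at hpk <;> exact absurd hpk (by assumption)
    · rcases hk with hk | hk | hk | hk <;> rw [hk, h] at hpk <;> exact absurd hpk (by assumption)
    · rcases hk with hk | hk | hk | hk <;> rw [hk] at hpk <;> tauto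
  have s1 : SEq C E' (E'.flatMap D.q1) :=
    SEq.insPair (C := C) n7 (hG.count hmem.2.1) (hG.count hmem.2.2.1) true D.a D.t D.m hx hb₁ e5
      (F _ (by simp)) (F _ (by simp)) (a₁ := pick (!D.t) D.nY) (a₂ := pick D.t D.nY)
      (a₁' := pick (!D.m) D.Z) (a₂' := pick D.m D.Z) (pick_append' _ _) (pick_append' _ _)
  have hG1 : IsGauss (E'.flatMap D.q1) := (gauss_req s1.toREq).1 hG
  have m1 : D.nX ∈ E'.flatMap D.q1 := by
    rw [List.mem_flatMap]
    refine ⟨D.nX, hmem.1, ?_⟩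
    unfold q1 put2
    rw [if_neg n9, if_neg n4]
    simp
  have m2 : D.Z' ∈ E'.flatMap D.q1 := by
    rw [List.mem_flatMap]
    refine ⟨D.Z', hmem.2.2.2, ?_⟩
    unfold q1 put2
    rw [if_neg n8.symm, if_neg n3.symm]
    simp
  have c1 : Fresh D.y (E'.flatMap D.q1) := by
    intro q hq
    rw [List.mem_flatMap] at hq
    obtain ⟨p, hp, hq⟩ := hq
    rcases D.mem_q1 hq with rfl | rfl | rfl | rfl | rfl
    · exact e1
    · exact j2
    · exact e1
    · exact j2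
    · exact F _ (by simp) _ hp
  have c2 : Fresh D.b₂ (E'.flatMap D.q1) := by
    intro q hq
    rw [List.mem_flatMap] at hq
    obtain ⟨p, hp, hq⟩ := hq
    rcases D.mem_q1 hq with rfl | rfl | rfl | rfl | rfl
    · exact e6
    · exact j6
    · exact e6
    · exact j6
    · exact F _ (by simp) _ hp
  have s2 : SEq C (E'.flatMap D.q1) ((E'.flatMap D.q1).flatMap D.q2) :=
    SEq.insPair (C := C) n5 (hG1.count m1) (hG1.count m2) true D.b (!D.t) D.l hy hb₂ f6'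
      c1 c2 (a₁ := pick D.t D.nX) (a₂ := pick (!D.t) D.nX)
      (a₁' := pick (!D.l) D.Z') (a₂' := pick D.l D.Z') (pick_append _ _) (pick_append' _ _)
  have e : (E'.flatMap D.q1).flatMap D.q2 = (asm j (inOrder D.t D.X D.Y) U (inOrder D.m D.X' D.Z) V
        (inOrder D.l D.Y' D.Z') W).flatMap D.σ₂ := by
    have kU : U.flatMap D.q1 = U ∧ U.flatMap D.q2 = U ∧ U.flatMap D.σ₂ = U := by
      apply D.eq_U
      intro p hp
      have := hf p (Or.inl hp)
      tauto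
    have kV : V.flatMap D.q1 = V ∧ V.flatMap D.q2 = V ∧ V.flatMap D.σ₂ = V := by
      apply D.eq_U
      intro p hp
      have := hf p (Or.inr (Or.inl hp))
      tauto
    have kW : W.flatMap D.q1 = W ∧ W.flatMap D.q2 = W ∧ W.flatMap D.σ₂ = W := by
      apply D.eq_U
      intro p hp
      have := hf p (Or.inr (Or.inr hp))
      tauto
    rw [hE', asm_flatMap, asm_flatMap, asm_flatMap, D.eq_T, D.eq_M, D.eq_L, kU.1, kU.2.1, kU.2.2,
      kV.1, kV.2.1, kV.2.2, kW.1, kW.2.1, kW.2.2]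
  rw [← e]
  exact s1.trans s2

end Tri

end Pool.Agent.R811.VK
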