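import Pool.Agent.R811.VK.Gauss

set_option autoImplicit false

namespace Pool.Agent.R811.VK

open Relation

/-- The operation `g` at the crossings in `S`. -/
def act (g : Pass → Word) (S : Finset ℕ) : Pass → Word := fun p => if p.name ∈ S then g p else [p]

/-- Operations at one crossing. -/
structure Good (g : Pass → Word) : Prop where
  names : ∀ p, ∀ q ∈ g p, q.name = p.name
  ren : ∀ (f : Equiv.Perm ℕ) (p : Pass), (g p).map (rename f) = g (rename f p)

/-- `H` is a diagram of `K₀` which contains `E` and which becomes `E` when the operation `g` is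
performed at the crossings in `S` and crossings in `N` are removed by moves. -/
structure Trk (g : Pass → Word) (K₀ E H : Word) (N S : Finset ℕ) : Prop where
  req : REq K₀ H
  sub : S ⊆ N
  card : S.card ≤ 1
  mem : ∀ p ∈ E, p ∈ H ∧ p.name ∉ N
  cov : ∀ p ∈ H, p.name ∈ N ∨ p ∈ E
  red : SEq N (H.flatMap (act g S)) E

theorem flatMap_single' (w : Word) {f : Pass → Word} (h : ∀ p ∈ w, f p = [p]) :
    w.flatMap f = w := flatMap_fixed w f h

theorem flatMap_comm_act {g : Pass → Word} (hg : Good g) {N S : Finset ℕ} (hS : S ⊆ N)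
    {τ : Pass → Word} (hτ : Adm N τ) (w : Word) :
    (w.flatMap τ).flatMap (act g S) = (w.flatMap (act g S)).flatMap τ := by
  rw [List.flatMap_assoc, List.flatMap_assoc]
  apply List.flatMap_congr
  intro p _
  by_cases hp : p.name ∈ N
  · rw [hτ.1 p hp]
    simp only [List.flatMap_cons, List.flatMap_nil, List.append_nil]
    symm
    apply flatMap_fixed
    intro q hq
    apply hτ.1
    unfold act at hq
    split_ifs at hq with h
    · rw [hg.names p q hq]
      exact hp
    · rw [List.mem_singleton] at hq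
      rw [hq]
      exact hp
  · have h1 : act g S p = [p] := by
      unfold act
      rw [if_neg fun h => hp (hS h)]
    rw [h1]
    simp only [List.flatMap_cons, List.flatMap_nil, List.append_nil]
    apply flatMap_fixed
    intro q hq
    unfold act
    rw [if_neg fun h => hτ.2 p hp q hq (hS h)]

theorem flatMap_act_map {g : Pass → Word} (hg : Good g) (S : Finset ℕ) (f : Equiv.Perm ℕ)
    (w : Word) :
    (w.flatMap (act g S)).map (rename f) = (w.map (rename f)).flatMap (act g (S.image f)) := by
  rw [List.map_flatMap, List.flatMap_map]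
  apply List.flatMap_congr
  intro p _
  unfold act
  by_cases hp : p.name ∈ S
  · rw [if_pos hp, if_pos (by exact Finset.mem_image_of_mem f hp), hg.ren]
  · have : (rename f p).name ∉ S.image f := by
      intro h
      rw [Finset.mem_image] at h
      obtain ⟨a, ha, h⟩ := h
      rw [f.injective h] at ha
      exact hp ha
    rw [if_neg hp, if_neg this]
    rfl

section

variable {g : Pass → Word} {K₀ E H : Word} {N S : Finset ℕ}

theorem Trk.step (hg : Good g) (h : Trk g K₀ E H N S) {τ : Pass → Word} (hτ : Adm N τ)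
    (hH : REq H (H.flatMap τ)) {N' : Finset ℕ} (hN : N ⊆ N') {E' : Word}
    (hE : SEq N' (E.flatMap τ) E') (h1 : ∀ p ∈ E.flatMap τ, p.name ∈ N' ∨ p ∈ E')
    (h2 : ∀ p ∈ E', p ∈ E.flatMap τ ∧ p.name ∉ N') : Trk g K₀ E' (H.flatMap τ) N' S where
  req := h.req.trans hH
  sub := h.sub.trans hN
  card := h.card
  mem p hp := by
    obtain ⟨h3, h4⟩ := h2 p hp
    refine ⟨?_, h4⟩
    rw [List.mem_flatMap] at h3 ⊢
    obtain ⟨q, hq, h3⟩ := h3
    exact ⟨q, (h.mem q hq).1, h3⟩
  cov p hp := by
    rw [List.mem_flatMap] at hp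
    obtain ⟨q, hq, hp⟩ := hp
    rcases h.cov q hq with h3 | h3
    · rw [hτ.1 q h3, List.mem_singleton] at hp
      left
      rw [hp]
      exact hN h3
    · exact h1 p (List.mem_flatMap.2 ⟨q, h3, hp⟩)
  red := by
    rw [flatMap_comm_act hg h.sub hτ]
    exact ((h.red.subst hτ).mono hN).trans hE

/-- Removal of crossings. -/
theorem Trk.step0 (h : Trk g K₀ E H N S) {N' : Finset ℕ} (hN : N ⊆ N') {E' : Word}
    (hE : SEq N' E E') (h1 : ∀ p ∈ E, p.name ∈ N' ∨ p ∈ E')
    (h2 : ∀ p ∈ E', p ∈ E ∧ p.name ∉ N') : Trk g K₀ E' H N' S where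
  req := h.req
  sub := h.sub.trans hN
  card := h.card
  mem p hp := ⟨(h.mem p (h2 p hp).1).1, (h2 p hp).2⟩
  cov p hp := by
    rcases h.cov p hp with h3 | h3
    · exact Or.inl (hN h3)
    · exact h1 p h3
  red := (h.red.mono hN).trans hE

theorem Trk.map (hg : Good g) (h : Trk g K₀ E H N S) (f : Equiv.Perm ℕ) :
    Trk g K₀ (E.map (rename f)) (H.map (rename f)) (N.image f) (S.image f) where
  req := h.req.trans (REq.of (Move.rename f H))
  sub := Finset.image_subset_image h.sub
  card := by
    rw [Finset.card_image_of_injective _ f.injective]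
    exact h.card
  mem p hp := by
    rw [List.mem_map] at hp
    obtain ⟨q, hq, rfl⟩ := hp
    refine ⟨List.mem_map_of_mem (h.mem q hq).1, ?_⟩
    intro h3
    rw [Finset.mem_image] at h3
    obtain ⟨a, ha, h3⟩ := h3
    rw [f.injective h3] at ha
    exact (h.mem q hq).2 ha
  cov p hp := by
    rw [List.mem_map] at hp
    obtain ⟨q, hq, rfl⟩ := hp
    rcases h.cov q hq with h3 | h3
    · exact Or.inl (Finset.mem_image_of_mem f h3)
    · exact Or.inr (List.mem_map_of_mem h3)
  red := by
    rw [← flatMap_act_map hg]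
    exact h.red.map f

/-- A name which is larger than all given names. -/
theorem exists_new (X : Finset ℕ) (w : Word) : ∃ K, ∀ i, K ≤ i → i ∉ X ∧ Fresh i w := by
  refine ⟨(X ∪ (w.map Pass.name).toFinset).sup id + 1, fun i hi => ⟨?_, ?_⟩⟩
  · intro h
    have : i ≤ (X ∪ (w.map Pass.name).toFinset).sup id :=
      Finset.le_sup (f := id) (Finset.mem_union_left _ h)
    omega
  · intro p hp h
    have h1 : p.name ∈ (X ∪ (w.map Pass.name).toFinset) := by
      apply Finset.mem_union_right
      rw [List.mem_toFinset]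
      exact List.mem_map_of_mem hp
    have : p.name ≤ (X ∪ (w.map Pass.name).toFinset).sup id := Finset.le_sup (f := id) h1
    omega

theorem map_rename_fixed {f : Equiv.Perm ℕ} {w : Word} (h : ∀ p ∈ w, f p.name = p.name) :
    w.map (rename f) = w := by
  conv_rhs => rw [← List.map_id w]
  apply List.map_congr_left
  intro p hp
  unfold rename
  rw [h p hp]
  rfl

theorem Trk.avoid (hg : Good g) (h : Trk g K₀ E H N S) {c : ℕ} (hc : Fresh c E) (X : Finset ℕ) :
    ∃ H' N' S', Trk g K₀ E H' N' S' ∧ c ∉ N' ∧ ∀ d ∈ X, d ≠ c → d ∉ N → d ∉ N' := by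
  obtain ⟨K, hK⟩ := exists_new (X ∪ N ∪ {c}) E
  obtain ⟨hK1, hK2⟩ := hK K le_rfl
  simp only [Finset.mem_union, Finset.mem_singleton, not_or] at hK1
  refine ⟨H.map (rename (Equiv.swap c K)), N.image (Equiv.swap c K), S.image (Equiv.swap c K),
    ?_, ?_, ?_⟩
  · have h1 := h.map hg (Equiv.swap c K)
    rwa [map_rename_fixed] at h1
    intro p hp
    exact Equiv.swap_apply_of_ne_of_ne (hc p hp) (hK2 p hp)
  · intro h1
    rw [Finset.mem_image] at h1
    obtain ⟨a, ha, h1⟩ := h1
    have : a = K := by
      have := congrArg (Equiv.swap c K) h1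
      rwa [Equiv.swap_apply_self, Equiv.swap_apply_left] at this
    exact hK1.1.2 (this ▸ ha)
  · intro d hd hdc hdN h1
    rw [Finset.mem_image] at h1
    obtain ⟨a, ha, h1⟩ := h1
    have hdK : d ≠ K := by
      rintro rfl
      exact hK1.1.1 hd
    have : a = d := by
      have := congrArg (Equiv.swap c K) h1
      rwa [Equiv.swap_apply_self, Equiv.swap_apply_of_ne_of_ne hdc hdK] at this
    exact hdN (this ▸ ha)

end

end Pool.Agent.R811.VK
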